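import Pool.Agent.Lib_helper7.TUN.Coef

set_option autoImplicit false

/-!
# Counting

`D c n L a = ∑ a s` over `y^2 + c s^2 = n`, `Q c d n L a b = ∑ a s * b t` over
`y^2 + c s^2 + d t^2 = n`, all variables in the box `[-L, L)`.
-/

namespace Pool.Agent.TUN

open Finset

/-- binary signed count -/
noncomputable def D (c n : ℤ) (L : ℕ) (a : ℤ → ℤ) : ℤ :=
  ∑ y ∈ J L, ∑ s ∈ J L, if y ^ 2 + c * s ^ 2 = n then a s else 0

/-- ternary signed count -/
noncomputable def Q (c d n : ℤ) (L : ℕ) (a b : ℤ → ℤ) : ℤ :=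
  ∑ y ∈ J L, ∑ s ∈ J L, ∑ t ∈ J L, if y ^ 2 + c * s ^ 2 + d * t ^ 2 = n then a s * b t else 0

/-- indicator of even numbers -/
def ev (s : ℤ) : ℤ := if s % 2 = 0 then 1 else 0

/-- indicator of odd numbers -/
def od (s : ℤ) : ℤ := if s % 2 = 0 then 0 else 1

lemma sq_lt_of (y n : ℤ) (L : ℕ) (hL : 2 * n + 3 ≤ L) (hy : (L : ℤ) ≤ |y|) : n < y ^ 2 := by
  rcases le_or_gt 0 n with h | h
  · rw [← sq_abs]; nlinarith
  · nlinarith [sq_nonneg y]

lemma F1 (n : ℕ) (hn : n % 8 = 1) (hsq : ¬ IsSquare n) (L : ℕ) (hL : 2 * n + 3 ≤ L) :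
    Q 8 8 n L sg sg = 0 := by
  unfold Q
  obtain ⟨N, rfl⟩ : ∃ N, L = N + 1 := ⟨L - 1, by omega⟩
  rw [ysum]
  · rw [F1_pos (by omega)]
    · ring
    · intro k hk
      exact hsq ⟨2 * k + 1, by rw [← hk]; ring⟩
  · intro y; simp only [neg_sq]
  · intro y hy
    apply sum_eq_zero; intro s _
    apply sum_eq_zero; intro t _
    rw [if_neg]
    intro h
    obtain ⟨z, rfl⟩ : ∃ z, y = 2 * z := ⟨y / 2, by omega⟩
    have h2 : 2 * (2 * z ^ 2 + 4 * s ^ 2 + 4 * t ^ 2) = (n : ℤ) := by rw [← h]; ring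
    generalize 2 * z ^ 2 + 4 * s ^ 2 + 4 * t ^ 2 = u at h2
    omega
  · intro y hy
    apply sum_eq_zero; intro s _
    apply sum_eq_zero; intro t _
    rw [if_neg]
    intro h
    have := sq_lt_of y n (N + 1) (by exact_mod_cast hL) (le_trans hy (le_abs_self y))
    nlinarith [sq_nonneg s, sq_nonneg t]

lemma D_eq_ysum (c : ℤ) (hc : 0 ≤ c) (hc2 : c % 2 = 0) (n : ℕ) (hn : n % 8 = 1) (L : ℕ)
    (hL : 2 * n + 3 ≤ L) (a : ℤ → ℤ) :
    D c n L a = 2 * ∑ k ∈ range L, ∑ s ∈ J L,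
      if (2 * (k : ℤ) + 1) ^ 2 + c * s ^ 2 = n then a s else 0 := by
  unfold D
  rw [ysum]
  · intro y; simp only [neg_sq]
  · intro y hy
    apply sum_eq_zero; intro s _
    rw [if_neg]
    intro h
    obtain ⟨z, rfl⟩ : ∃ z, y = 2 * z := ⟨y / 2, by omega⟩
    obtain ⟨c', rfl⟩ : ∃ z, c = 2 * z := ⟨c / 2, by omega⟩
    have h2 : 2 * (2 * z ^ 2 + c' * s ^ 2) = (n : ℤ) := by rw [← h]; ring
    generalize 2 * z ^ 2 + c' * s ^ 2 = u at h2
    omega
  · intro y hy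
    apply sum_eq_zero; intro s _
    rw [if_neg]
    intro h
    have := sq_lt_of y n L (by exact_mod_cast hL) (le_trans hy (le_abs_self y))
    nlinarith [mul_nonneg hc (sq_nonneg s)]

lemma F2 (N : ℤ) (hN : N % 8 = 1) (L : ℕ) (hL : 2 * N + 3 ≤ L) :
    D 8 N L sg = sig N * D 16 N L sg := by
  rcases le_or_gt 0 N with h | h
  · obtain ⟨n, rfl⟩ := Int.eq_ofNat_of_zero_le h
    have hn : n % 8 = 1 := by omega
    have hL' : 2 * n + 3 ≤ L := by exact_mod_cast hL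
    rw [D_eq_ysum 8 (by norm_num) (by norm_num) n hn L hL', D_eq_ysum 16 (by norm_num) (by norm_num) n hn L hL']
    obtain ⟨M, rfl⟩ : ∃ M, L = M + 1 := ⟨L - 1, by omega⟩
    rw [F2_pos (by omega) hn]
    ring
  · have hz : ∀ c : ℤ, 0 ≤ c → D c N L sg = 0 := by
      intro c hc
      unfold D
      apply sum_eq_zero; intro y _
      apply sum_eq_zero; intro s _
      rw [if_neg]
      intro h'
      nlinarith [mul_nonneg hc (sq_nonneg s), sq_nonneg y]
    rw [hz 8 (by norm_num), hz 16 (by norm_num), mul_zero]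

lemma Q_t (c d n : ℤ) (L : ℕ) (a b : ℤ → ℤ) :
    Q c d n L a b = ∑ t ∈ J L, b t * D c (n - d * t ^ 2) L a := by
  unfold Q D
  have : ∀ t ∈ J L, b t * ∑ y ∈ J L, ∑ s ∈ J L, (if y ^ 2 + c * s ^ 2 = n - d * t ^ 2 then a s else 0)
      = ∑ y ∈ J L, ∑ s ∈ J L, if y ^ 2 + c * s ^ 2 + d * t ^ 2 = n then a s * b t else 0 := by
    intro t _
    rw [mul_sum]
    apply sum_congr rfl; intro y _
    rw [mul_sum]
    apply sum_congr rfl; intro s _
    have : (y ^ 2 + c * s ^ 2 = n - d * t ^ 2) ↔ (y ^ 2 + c * s ^ 2 + d * t ^ 2 = n) := by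
      constructor <;> intro h <;> linarith
    simp only [this]
    split_ifs <;> ring
  rw [sum_congr rfl this]
  symm
  rw [sum_comm]
  apply sum_congr rfl; intro y _
  rw [sum_comm]

lemma Q_s (c d n : ℤ) (L : ℕ) (a b : ℤ → ℤ) :
    Q c d n L a b = ∑ s ∈ J L, a s * D d (n - c * s ^ 2) L b := by
  unfold Q D
  have : ∀ s ∈ J L, a s * ∑ y ∈ J L, ∑ t ∈ J L, (if y ^ 2 + d * t ^ 2 = n - c * s ^ 2 then b t else 0)
      = ∑ y ∈ J L, ∑ t ∈ J L, if y ^ 2 + c * s ^ 2 + d * t ^ 2 = n then a s * b t else 0 := by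
    intro s _
    rw [mul_sum]
    apply sum_congr rfl; intro y _
    rw [mul_sum]
    apply sum_congr rfl; intro t _
    have : (y ^ 2 + d * t ^ 2 = n - c * s ^ 2) ↔ (y ^ 2 + c * s ^ 2 + d * t ^ 2 = n) := by
      constructor <;> intro h <;> linarith
    simp only [this]
    split_ifs <;> ring
  rw [sum_congr rfl this]
  exact sum_comm

lemma Q_swap (c d n : ℤ) (L : ℕ) (a b : ℤ → ℤ) : Q c d n L a b = Q d c n L b a := by
  rw [Q_t, Q_s]

lemma Q_left (c d n : ℤ) (L : ℕ) (x y : ℤ) (a a' f b : ℤ → ℤ) (h : ∀ s, f s = x * a s + y * a' s) :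
    Q c d n L f b = x * Q c d n L a b + y * Q c d n L a' b := by
  rw [Q_s, Q_s, Q_s, mul_sum, mul_sum, ← sum_add_distrib]
  apply sum_congr rfl; intro s _
  rw [h]; ring

lemma Q_right (c d n : ℤ) (L : ℕ) (x y : ℤ) (b b' f a : ℤ → ℤ) (h : ∀ s, f s = x * b s + y * b' s) :
    Q c d n L a f = x * Q c d n L a b + y * Q c d n L a b' := by
  rw [Q_swap, Q_left d c n L x y b b' f a h, Q_swap d c, Q_swap d c]

lemma sg_ev_od (s : ℤ) : sg s = 1 * ev s + (-1) * od s := by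
  unfold sg ev od; split_ifs <;> ring

lemma one_ev_od (s : ℤ) : (1 : ℤ) = 1 * ev s + 1 * od s := by
  unfold ev od; split_ifs <;> ring

lemma sig_sub_sixteen (n t : ℤ) : sig (n - 16 * t ^ 2) = sig n := by
  unfold sig
  generalize t ^ 2 = u
  have : (n - 16 * u) % 16 = 1 ↔ n % 16 = 1 := by omega
  simp only [this]

lemma sig_sub_eight (n s : ℤ) (hn : n % 8 = 1) : sig (n - 8 * s ^ 2) = sig n * sg s := by
  unfold sig sg
  rcases Int.even_or_odd' s with ⟨k, rfl | rfl⟩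
  · have h1 : (n - 8 * (2 * k) ^ 2) % 16 = 1 ↔ n % 16 = 1 := by
      rw [show (2 * k) ^ 2 = 2 * (2 * k ^ 2) by ring]
      generalize 2 * k ^ 2 = u
      omega
    have h2 : (2 * k) % 2 = 0 := by omega
    simp only [h1, h2, if_true, mul_one]
  · have h1 : (n - 8 * (2 * k + 1) ^ 2) % 16 = 1 ↔ ¬ (n % 16 = 1) := by
      rw [show (2 * k + 1) ^ 2 = 2 * (2 * k ^ 2 + 2 * k) + 1 by ring]
      generalize 2 * k ^ 2 + 2 * k = u
      omega
    have h2 : ¬ ((2 * k + 1) % 2 = 0) := by omega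
    simp only [h1, h2, if_false]
    split_ifs <;> simp_all

lemma sig_sq (n : ℤ) : sig n * sig n = 1 := by unfold sig; split_ifs <;> norm_num

/-- slices of `Z` with `t` fixed -/
lemma Z_left (n : ℤ) (hn : n % 8 = 1) (L : ℕ) (hL : 2 * n + 3 ≤ L) (b : ℤ → ℤ) :
    Q 8 16 n L sg b = sig n * Q 16 16 n L sg b := by
  rw [Q_t, Q_t, mul_sum]
  apply sum_congr rfl; intro t _
  rw [F2 (n - 16 * t ^ 2) (by generalize t ^ 2 = u; omega) L (by nlinarith [sq_nonneg t]), sig_sub_sixteen]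
  ring

/-- slices of `Z` with `s` fixed -/
lemma Z_right (n : ℤ) (hn : n % 8 = 1) (L : ℕ) (hL : 2 * n + 3 ≤ L) (a : ℤ → ℤ) :
    Q 8 16 n L a sg = sig n * Q 8 8 n L (fun s => a s * sg s) sg := by
  rw [Q_s, Q_s, mul_sum]
  apply sum_congr rfl; intro s _
  have h := F2 (n - 8 * s ^ 2) (by generalize s ^ 2 = u; omega) L (by nlinarith [sq_nonneg s])
  rw [sig_sub_eight n s hn] at h
  rw [h]
  have h1 := sig_sq n
  have h2 : sg s * sg s = 1 := by unfold sg; split_ifs <;> norm_num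
  linear_combination (-(a s * D 16 (n - 8 * s ^ 2) L sg)) * (sig n * sig n) * h2
    - (a s * D 16 (n - 8 * s ^ 2) L sg) * h1

/-- change of variables `s = S + T`, `t = S - T` -/
lemma rot (L : ℕ) (h : ℤ → ℤ → ℤ) (h0 : ∀ s t, s % 2 ≠ t % 2 → h s t = 0)
    (h1 : ∀ s t : ℤ, (L : ℤ) ≤ |s| → h s t = 0) (h2 : ∀ s t : ℤ, (L : ℤ) ≤ |t| → h s t = 0) :
    ∑ s ∈ J L, ∑ t ∈ J L, h s t = ∑ S ∈ J L, ∑ T ∈ J L, h (S + T) (S - T) := by
  rw [← sum_product', ← sum_product']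
  symm
  apply sum_bij_ne_zero (fun v _ _ => ((v.1 + v.2, v.1 - v.2) : ℤ × ℤ))
  · intro v _ hv
    have a1 : ¬ ((L : ℤ) ≤ |v.1 + v.2|) := fun hh => hv (h1 _ _ hh)
    have a2 : ¬ ((L : ℤ) ≤ |v.1 - v.2|) := fun hh => hv (h2 _ _ hh)
    rw [not_le, abs_lt] at a1 a2
    simp only [Finset.mem_product, Finset.mem_Ico]
    omega
  · intro v _ _ w _ _ hvw
    simp only [Prod.mk.injEq] at hvw
    ext <;> omega
  · intro w hw hw0
    have a0 : w.1 % 2 = w.2 % 2 := by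
      by_contra hc; exact hw0 (h0 _ _ hc)
    simp only [Finset.mem_product, Finset.mem_Ico] at hw
    refine ⟨((w.1 + w.2) / 2, (w.1 - w.2) / 2), ?_, ?_, ?_⟩
    · simp only [Finset.mem_product, Finset.mem_Ico]; omega
    · have e1 : (w.1 + w.2) / 2 + (w.1 - w.2) / 2 = w.1 := by omega
      have e2 : (w.1 + w.2) / 2 - (w.1 - w.2) / 2 = w.2 := by omega
      simp only [e1, e2]; exact hw0
    · ext <;> simp only <;> omega
  · intro v _ _; rfl

lemma rotQ (n : ℤ) (L : ℕ) (hL : 2 * n + 3 ≤ L) (a b a1 b1 a2 b2 : ℤ → ℤ)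
    (hz : ∀ s t, s % 2 ≠ t % 2 → a s * b t = 0)
    (hr : ∀ S T, a (S + T) * b (S - T) = a1 S * b1 T + a2 S * b2 T) :
    Q 8 8 n L a b = Q 16 16 n L a1 b1 + Q 16 16 n L a2 b2 := by
  unfold Q
  rw [← sum_add_distrib]
  apply sum_congr rfl; intro y _
  rw [rot]
  · rw [← sum_add_distrib]
    apply sum_congr rfl; intro S _
    rw [← sum_add_distrib]
    apply sum_congr rfl; intro T _
    have : (y ^ 2 + 8 * (S + T) ^ 2 + 8 * (S - T) ^ 2 = n) ↔ (y ^ 2 + 16 * S ^ 2 + 16 * T ^ 2 = n) := by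
      constructor <;> intro h <;> linarith
    simp only [this]
    split_ifs
    · exact hr S T
    · rfl
  · intro s t hst
    rw [hz s t hst]; simp
  · intro s t hs
    rw [if_neg]
    intro h
    have := sq_lt_of s n L hL hs
    nlinarith [sq_nonneg y, sq_nonneg t, sq_nonneg s]
  · intro s t hs
    rw [if_neg]
    intro h
    have := sq_lt_of t n L hL hs
    nlinarith [sq_nonneg y, sq_nonneg t, sq_nonneg s]

lemma X_ee (n : ℤ) (L : ℕ) (hL : 2 * n + 3 ≤ L) :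
    Q 8 8 n L ev ev = Q 16 16 n L ev ev + Q 16 16 n L od od := by
  apply rotQ n L hL
  · intro s t h; unfold ev; split_ifs <;> first | omega | norm_num
  · intro S T; unfold ev od; split_ifs <;> first | omega | norm_num

lemma X_oo (n : ℤ) (L : ℕ) (hL : 2 * n + 3 ≤ L) :
    Q 8 8 n L od od = Q 16 16 n L ev od + Q 16 16 n L od ev := by
  apply rotQ n L hL
  · intro s t h; unfold od; split_ifs <;> first | omega | norm_num
  · intro S T; unfold ev od; split_ifs <;> first | omega | norm_num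

end Pool.Agent.TUN
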