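import Pool.Agent.Lib_helper7.TUN.Three

set_option autoImplicit false

/-!
# The class `n ≡ 3 mod 8`: from the counts to the symmetric sums
-/

namespace Pool.Agent.TUN

open Finset

lemma sum_neg_box (L : ℕ) (g : ℤ → ℤ) (h1 : g L = 0) (h2 : g (-L) = 0) :
    ∑ t ∈ J L, g (-t) = ∑ t ∈ J L, g t := by
  rw [sum_box, sum_box, sum_add_distrib, sum_add_distrib]
  have e1 := sum_range_succ' (fun k : ℕ => g (-(k : ℤ))) L
  have e2 := sum_range_succ (fun k : ℕ => g (-(k : ℤ))) L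
  have e3 := sum_range_succ' (fun k : ℕ => g (k : ℤ)) L
  have e4 := sum_range_succ (fun k : ℕ => g (k : ℤ)) L
  push_cast at e1 e3
  rw [h2] at e2
  rw [h1] at e4
  simp only [neg_neg]
  rw [neg_zero] at e1
  linarith

lemma odd_of_eq {n S y z : ℤ} (hn : n % 8 = 3) (h : n = 2 * S ^ 2 + y ^ 2 + 8 * z ^ 2) : S % 2 = 1 := by
  obtain ⟨k, ⟨h1, h2⟩ | ⟨h1, h2⟩⟩ := sq8 S
  · obtain ⟨l, ⟨h3, h4⟩ | ⟨h3, h4⟩⟩ := sq8 y <;> rw [h2, h4] at h <;> generalize z ^ 2 = u at h <;> omega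
  · omega

lemma quarter (y : ℤ) (n : ℕ) (hn : n % 8 = 3) (L : ℕ) (hL : 2 * n + 3 ≤ L) (w : ℤ → ℤ) (v : ℤ → ℤ → ℤ)
    (hv : ∀ S z, S % 2 = 1 → v (S + 2 * z) (S - 2 * z) = w z)
    (hv2 : ∀ u t, t % 2 = 1 → v u (-t) = v u t) :
    2 * (∑ x ∈ J L, ∑ z ∈ J L, if (n : ℤ) = 2 * x ^ 2 + y ^ 2 + 8 * z ^ 2 then w z else 0)
      = ∑ u ∈ J L, ∑ t ∈ J L, if y ^ 2 + u ^ 2 + t ^ 2 = n ∧ u % 2 = 1 ∧ t % 2 = 1 then v u t else 0 := by
  have hL' : 2 * (n : ℤ) + 3 ≤ L := by exact_mod_cast hL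
  have e1 : ∑ u ∈ J L, ∑ t ∈ J L,
      (if y ^ 2 + u ^ 2 + t ^ 2 = n ∧ u % 2 = 1 ∧ t % 2 = 1 ∧ (u - t) % 4 = 0 then v u t else 0)
      = ∑ x ∈ J L, ∑ z ∈ J L, if (n : ℤ) = 2 * x ^ 2 + y ^ 2 + 8 * z ^ 2 then w z else 0 := by
    rw [rot]
    · apply sum_congr rfl; intro S _
      rw [halve]
      · apply sum_congr rfl; intro z _
        by_cases h : (n : ℤ) = 2 * S ^ 2 + y ^ 2 + 8 * z ^ 2
        · have hS : S % 2 = 1 := odd_of_eq (n := n) (by omega) h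
          rw [if_pos h, if_pos]
          · exact hv S z hS
          · refine ⟨by linarith, by omega, by omega, by omega⟩
        · rw [if_neg h, if_neg]
          intro h'
          apply h
          linarith [h'.1]
      · intro T hT
        rw [if_neg]
        intro h
        omega
      · intro T hT
        rw [if_neg]
        intro h
        have := sq_lt_of T n L hL' hT
        nlinarith [h.1, sq_nonneg y, sq_nonneg S, sq_nonneg T]
    · intro s t hst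
      rw [if_neg]
      intro h
      omega
    · intro s t hs
      rw [if_neg]
      intro h
      have := sq_lt_of s n L hL' hs
      nlinarith [h.1, sq_nonneg y, sq_nonneg t]
    · intro s t hs
      rw [if_neg]
      intro h
      have := sq_lt_of t n L hL' hs
      nlinarith [h.1, sq_nonneg y, sq_nonneg s]
  rw [← e1, mul_sum]
  apply sum_congr rfl; intro u _
  have e2 := sum_neg_box L (fun t => if y ^ 2 + u ^ 2 + t ^ 2 = n ∧ u % 2 = 1 ∧ t % 2 = 1 ∧ (u - t) % 4 = 0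
    then v u t else 0)
    (by
      rw [if_neg]
      intro h
      have := sq_lt_of L n L hL' (le_abs_self _)
      nlinarith [h.1, sq_nonneg y, sq_nonneg u])
    (by
      rw [if_neg]
      intro h
      have := sq_lt_of L n L hL' (le_abs_self _)
      nlinarith [h.1, sq_nonneg y, sq_nonneg u])
  rw [two_mul]
  nth_rw 1 [← e2]
  rw [← sum_add_distrib]
  apply sum_congr rfl; intro t _
  by_cases h : y ^ 2 + u ^ 2 + t ^ 2 = n ∧ u % 2 = 1 ∧ t % 2 = 1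
  · rw [if_pos h]
    obtain ⟨h1, h2, h3⟩ := h
    by_cases h4 : (u - t) % 4 = 0
    · rw [if_neg (by intro h'; omega), if_pos ⟨h1, h2, h3, h4⟩, zero_add]
    · rw [if_pos ⟨by rw [neg_sq]; exact h1, h2, by omega, by omega⟩, if_neg (by intro h'; exact h4 h'.2.2.2),
        add_zero]
      exact hv2 u t h3
  · rw [if_neg h, if_neg, if_neg, add_zero]
    · intro h'; exact h ⟨h'.1, h'.2.1, h'.2.2.1⟩
    · intro h'
      apply h
      refine ⟨by have := h'.1; rw [neg_sq] at this; exact this, h'.2.1, by omega⟩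

/-- all signs against positive odd numbers -/
lemma oct_sum (n : ℕ) (hn : n % 8 = 3) (L : ℕ) (hL : 2 * n + 3 ≤ L) (v : ℤ → ℤ → ℤ)
    (hv1 : ∀ u t, u % 2 = 1 → v (-u) t = v u t) (hv2 : ∀ u t, t % 2 = 1 → v u (-t) = v u t) :
    (∑ y ∈ J L, ∑ u ∈ J L, ∑ t ∈ J L,
      if y ^ 2 + u ^ 2 + t ^ 2 = n ∧ u % 2 = 1 ∧ t % 2 = 1 then v u t else 0)
      = 8 * R3 L (fun a b c => if (2 * (a : ℤ) + 1) ^ 2 + (2 * b + 1) ^ 2 + (2 * c + 1) ^ 2 = n
          then v (2 * b + 1) (2 * c + 1) else 0) := by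
  have hL' : 2 * (n : ℤ) + 3 ≤ L := by exact_mod_cast hL
  have hbig : ∀ x : ℤ, (L : ℤ) ≤ x → (n : ℤ) < x ^ 2 := fun x hx => sq_lt_of x n L hL' (le_trans hx (le_abs_self x))
  have e1 : ∀ y u : ℤ, (∑ t ∈ J L, if y ^ 2 + u ^ 2 + t ^ 2 = n ∧ u % 2 = 1 ∧ t % 2 = 1 then v u t else 0)
      = 2 * ∑ c ∈ range L, if y ^ 2 + u ^ 2 + (2 * (c : ℤ) + 1) ^ 2 = n ∧ u % 2 = 1
          then v u (2 * c + 1) else 0 := by
    intro y u
    rw [ysum]
    · congr 1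
      apply sum_congr rfl; intro c _
      have : (y ^ 2 + u ^ 2 + (2 * (c : ℤ) + 1) ^ 2 = n ∧ u % 2 = 1 ∧ (2 * (c : ℤ) + 1) % 2 = 1)
          ↔ (y ^ 2 + u ^ 2 + (2 * (c : ℤ) + 1) ^ 2 = n ∧ u % 2 = 1) := by
        constructor
        · exact fun h => ⟨h.1, h.2.1⟩
        · exact fun h => ⟨h.1, h.2, by omega⟩
      simp only [this]
    · intro t
      rw [neg_sq]
      by_cases h : y ^ 2 + u ^ 2 + t ^ 2 = n ∧ u % 2 = 1 ∧ t % 2 = 1
      · rw [if_pos h, if_pos ⟨h.1, h.2.1, by omega⟩, hv2 u t h.2.2]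
      · rw [if_neg h, if_neg]
        intro h'; exact h ⟨h'.1, h'.2.1, by omega⟩
    · intro t ht; rw [if_neg]; intro h; omega
    · intro t ht; rw [if_neg]; intro h; nlinarith [hbig t ht, h.1, sq_nonneg y, sq_nonneg u]
  have e2 : ∀ y : ℤ, (∑ u ∈ J L, ∑ t ∈ J L,
      if y ^ 2 + u ^ 2 + t ^ 2 = n ∧ u % 2 = 1 ∧ t % 2 = 1 then v u t else 0)
      = 4 * ∑ b ∈ range L, ∑ c ∈ range L, if y ^ 2 + (2 * (b : ℤ) + 1) ^ 2 + (2 * (c : ℤ) + 1) ^ 2 = n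
          then v (2 * b + 1) (2 * c + 1) else 0 := by
    intro y
    simp only [e1]
    rw [← mul_sum, ysum]
    · rw [← mul_assoc]
      have : ∀ b c : ℕ, (y ^ 2 + (2 * (b : ℤ) + 1) ^ 2 + (2 * (c : ℤ) + 1) ^ 2 = n ∧ (2 * (b : ℤ) + 1) % 2 = 1)
          ↔ (y ^ 2 + (2 * (b : ℤ) + 1) ^ 2 + (2 * (c : ℤ) + 1) ^ 2 = n) :=
        fun b c => ⟨fun h => h.1, fun h => ⟨h, by omega⟩⟩
      simp only [this]
      norm_num
    · intro u
      rw [neg_sq]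
      apply sum_congr rfl; intro c _
      by_cases h : y ^ 2 + u ^ 2 + (2 * (c : ℤ) + 1) ^ 2 = n ∧ u % 2 = 1
      · rw [if_pos h, if_pos ⟨h.1, by omega⟩, hv1 u _ h.2]
      · rw [if_neg h, if_neg]
        intro h'; exact h ⟨h'.1, by omega⟩
    · intro u hu
      apply sum_eq_zero; intro c _
      rw [if_neg]; intro h; omega
    · intro u hu
      apply sum_eq_zero; intro c _
      rw [if_neg]; intro h; nlinarith [hbig u hu, h.1, sq_nonneg y, sq_nonneg (2 * (c : ℤ) + 1)]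
  simp only [e2]
  rw [← mul_sum, ysum]
  · unfold R3
    ring
  · intro y; simp only [neg_sq]
  · intro y hy
    apply sum_eq_zero; intro b _
    apply sum_eq_zero; intro c _
    rw [if_neg]; intro h
    obtain ⟨z, rfl⟩ : ∃ z, y = 2 * z := ⟨y / 2, by omega⟩
    have h2 : 2 * (2 * z ^ 2 + 2 * (b : ℤ) ^ 2 + 2 * b + 2 * (c : ℤ) ^ 2 + 2 * c + 1) = (n : ℤ) := by
      rw [← h]; ring
    generalize 2 * z ^ 2 + 2 * (b : ℤ) ^ 2 + 2 * b + 2 * (c : ℤ) ^ 2 + 2 * c + 1 = u at h2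
    omega
  · intro y hy
    apply sum_eq_zero; intro b _
    apply sum_eq_zero; intro c _
    rw [if_neg]; intro h
    nlinarith [hbig y hy, sq_nonneg (2 * (b : ℤ) + 1), sq_nonneg (2 * (c : ℤ) + 1)]

lemma tw_pair (S z : ℤ) (hS : S % 2 = 1) : tw (S + 2 * z) * tw (S - 2 * z) = sg z := by
  unfold tw sg
  rcases Int.even_or_odd' z with ⟨k, rfl | rfl⟩
  · rw [if_pos (show (2 * k) % 2 = 0 by omega)]
    split_ifs <;> first | (norm_num; done) | (exfalso; omega)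
  · rw [if_neg (show ¬ ((2 * k + 1) % 2 = 0) by omega)]
    split_ifs <;> first | (norm_num; done) | (exfalso; omega)

lemma sumB3 (n : ℕ) (L : ℕ) (hL : 2 * n + 3 ≤ L) :
    (((N9003ba20.B n).ncard : ℕ) : ℤ)
      = ∑ y ∈ J L, ∑ x ∈ J L, ∑ z ∈ J L, if (n : ℤ) = 2 * x ^ 2 + y ^ 2 + 8 * z ^ 2 then 1 else 0 := by
  have hL' : 2 * (n : ℤ) + 3 ≤ L := by exact_mod_cast hL
  rw [ncard3 _ (fun x y z => (n : ℤ) = 2 * x ^ 2 + y ^ 2 + 8 * z ^ 2) L (fun x y z => Iff.rfl)]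
  · exact sum_comm
  · intro x y z h
    refine ⟨lt_of_sq n hL' ?_, lt_of_sq n hL' ?_, lt_of_sq n hL' ?_⟩ <;>
      nlinarith [sq_nonneg y, sq_nonneg z, sq_nonneg x]

lemma sumA3 (n : ℕ) (L : ℕ) (hL : 2 * n + 3 ≤ L) :
    (((N9003ba20.A n).ncard : ℕ) : ℤ)
      = ∑ y ∈ J L, ∑ x ∈ J L, ∑ z ∈ J L, if (n : ℤ) = 2 * x ^ 2 + y ^ 2 + 8 * z ^ 2 then ev z else 0 := by
  have hL' : 2 * (n : ℤ) + 3 ≤ L := by exact_mod_cast hL
  rw [ncard3 _ (fun x y z => (n : ℤ) = 2 * x ^ 2 + y ^ 2 + 32 * z ^ 2) L (fun x y z => Iff.rfl)]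
  · rw [sum_comm]
    apply sum_congr rfl; intro y _
    apply sum_congr rfl; intro x _
    rw [halve L (fun z => if (n : ℤ) = 2 * x ^ 2 + y ^ 2 + 8 * z ^ 2 then ev z else 0)]
    · apply sum_congr rfl; intro t _
      have h1 : ((n : ℤ) = 2 * x ^ 2 + y ^ 2 + 32 * t ^ 2) ↔ ((n : ℤ) = 2 * x ^ 2 + y ^ 2 + 8 * (2 * t) ^ 2) := by
        constructor <;> intro h <;> linarith
      simp only [h1, ev_two]
    · intro z hz
      simp [ev_of_odd hz]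
    · intro z hz
      rw [if_neg]
      intro h
      have := sq_lt_of z n L hL' hz
      nlinarith [sq_nonneg y, sq_nonneg x, sq_nonneg z]
  · intro x y z h
    refine ⟨lt_of_sq n hL' ?_, lt_of_sq n hL' ?_, lt_of_sq n hL' ?_⟩ <;>
      nlinarith [sq_nonneg y, sq_nonneg z, sq_nonneg x]

lemma B_PS (n : ℕ) (hn : n % 8 = 3) (L : ℕ) (hL : 2 * n + 3 ≤ L) :
    (((N9003ba20.B n).ncard : ℕ) : ℤ) = 4 * PS n L (fun _ => 1) := by
  have h1 := oct_sum n hn L hL (fun _ _ => 1) (fun _ _ _ => rfl) (fun _ _ _ => rfl)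
  have h2 : 2 * (((N9003ba20.B n).ncard : ℕ) : ℤ) = ∑ y ∈ J L, ∑ u ∈ J L, ∑ t ∈ J L,
      if y ^ 2 + u ^ 2 + t ^ 2 = n ∧ u % 2 = 1 ∧ t % 2 = 1 then 1 else 0 := by
    rw [sumB3 n L hL, mul_sum]
    apply sum_congr rfl; intro y _
    exact quarter y n hn L hL (fun _ => 1) (fun _ _ => 1) (fun _ _ _ => rfl) (fun _ _ _ => rfl)
  have h3 : R3 L (fun a b c => if (2 * (a : ℤ) + 1) ^ 2 + (2 * b + 1) ^ 2 + (2 * c + 1) ^ 2 = n
          then (1 : ℤ) else 0) = PS n L (fun _ => 1) := by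
    unfold PS
    apply R3_congr; intro a b c
    rw [mul_one]
  rw [h1, h3] at h2
  linarith

lemma c_PS (n : ℕ) (hn : n % 8 = 3) (L : ℕ) (hL : 2 * n + 3 ≤ L) :
    cT n = 4 * sig3 n * PS n L tw := by
  have h1 := oct_sum n hn L hL (fun u t => tw u * tw t)
    (fun u t hu => by rw [tw_neg u (by omega)]) (fun u t ht => by rw [tw_neg t (by omega)])
  have h2 : 2 * cT n = ∑ y ∈ J L, ∑ u ∈ J L, ∑ t ∈ J L,
      if y ^ 2 + u ^ 2 + t ^ 2 = n ∧ u % 2 = 1 ∧ t % 2 = 1 then tw u * tw t else 0 := by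
    unfold cT
    rw [sumB3 n L hL, sumA3 n L hL]
    have h4 : 2 * (∑ y ∈ J L, ∑ x ∈ J L, ∑ z ∈ J L,
          if (n : ℤ) = 2 * x ^ 2 + y ^ 2 + 8 * z ^ 2 then ev z else 0)
        - (∑ y ∈ J L, ∑ x ∈ J L, ∑ z ∈ J L, if (n : ℤ) = 2 * x ^ 2 + y ^ 2 + 8 * z ^ 2 then 1 else 0)
        = ∑ y ∈ J L, ∑ x ∈ J L, ∑ z ∈ J L, if (n : ℤ) = 2 * x ^ 2 + y ^ 2 + 8 * z ^ 2 then sg z else 0 := by
      simp only [mul_sum, ← sum_sub_distrib]
      apply sum_congr rfl; intro y _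
      apply sum_congr rfl; intro x _
      apply sum_congr rfl; intro z _
      unfold ev sg
      split_ifs <;> norm_num
    rw [h4, mul_sum]
    apply sum_congr rfl; intro y _
    exact quarter y n hn L hL sg (fun u t => tw u * tw t) (fun S z hS => tw_pair S z hS)
      (fun u t ht => by rw [tw_neg t (by omega)])
  have hs : sig3 (n : ℤ) * sig3 (n : ℤ) = 1 := by unfold sig3; split_ifs <;> norm_num
  have h3 : R3 L (fun a b c => if (2 * (a : ℤ) + 1) ^ 2 + (2 * b + 1) ^ 2 + (2 * c + 1) ^ 2 = n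
          then tw (2 * b + 1) * tw (2 * c + 1) else 0) = sig3 n * PS n L tw := by
    unfold PS
    rw [← R3_mul]
    apply R3_congr; intro a b c
    split_ifs with h
    · have hp := tw_prod (n := n) (x := 2 * (a : ℤ) + 1) (y := 2 * b + 1) (z := 2 * c + 1) (by omega)
        (by omega) (by omega) (by omega) h
      have hsq : tw (2 * (a : ℤ) + 1) * tw (2 * a + 1) = 1 := by
        rcases tw_cases (2 * (a : ℤ) + 1) with h' | h' <;> rw [h'] <;> norm_num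
      rw [one_mul, ← hp]
      linear_combination (-(tw (2 * (b : ℤ) + 1) * tw (2 * c + 1))) * hsq
    · ring
  rw [h1, h3] at h2
  linarith

/-- `#{(x,z) ∈ ℤ² : n = 2x² + z², xz ≡ ±1 mod 8}` -/
noncomputable def Rc3 (n : ℕ) : ℤ :=
  (({v : ℤ × ℤ | (n : ℤ) = 2 * v.1 ^ 2 + v.2 ^ 2 ∧ (v.1 * v.2 % 8 = 1 ∨ v.1 * v.2 % 8 = 7)}).ncard : ℤ)

lemma xz_mod (x z : ℤ) : (x * z) % 8 = ((x % 8) * (z % 8)) % 8 := Int.mul_emod x z 8

lemma tw_xz (x z : ℤ) (hx : x % 2 = 1) (hz : z % 2 = 1) :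
    (x * z % 8 = 1 ∨ x * z % 8 = 7) ↔ tw x = tw z := by
  rw [xz_mod]
  have h1 : x % 8 = 1 ∨ x % 8 = 3 ∨ x % 8 = 5 ∨ x % 8 = 7 := by omega
  have h2 : z % 8 = 1 ∨ z % 8 = 3 ∨ z % 8 = 5 ∨ z % 8 = 7 := by omega
  unfold tw
  rcases h1 with h1 | h1 | h1 | h1 <;> rcases h2 with h2 | h2 | h2 | h2 <;> rw [h1, h2] <;> norm_num

lemma xz_odd (x z : ℤ) (h : x * z % 8 = 1 ∨ x * z % 8 = 7) : x % 2 = 1 ∧ z % 2 = 1 := by
  constructor
  · by_contra hc
    obtain ⟨k, rfl⟩ : ∃ k, x = 2 * k := ⟨x / 2, by omega⟩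
    rw [mul_assoc] at h
    omega
  · by_contra hc
    obtain ⟨k, rfl⟩ : ∃ k, z = 2 * k := ⟨z / 2, by omega⟩
    rw [show x * (2 * k) = 2 * (x * k) by ring] at h
    omega

lemma R_PB (n : ℕ) (hn : n % 8 = 3) (L : ℕ) (hL : 2 * n + 3 ≤ L) :
    Rc3 n = 2 * (PB n L (fun _ => 1) + sig3 n * PB n L tw) := by
  have hL' : 2 * (n : ℤ) + 3 ≤ L := by exact_mod_cast hL
  have hbig : ∀ x : ℤ, (L : ℤ) ≤ x → (n : ℤ) < x ^ 2 := fun x hx => sq_lt_of x n L hL' (le_trans hx (le_abs_self x))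
  unfold Rc3
  rw [ncard2 _ (fun x z => (n : ℤ) = 2 * x ^ 2 + z ^ 2 ∧ (x * z % 8 = 1 ∨ x * z % 8 = 7)) L
    (fun x y => Iff.rfl)]
  · have e1 : ∀ x : ℤ, (∑ z ∈ J L, if (n : ℤ) = 2 * x ^ 2 + z ^ 2 ∧ (x * z % 8 = 1 ∨ x * z % 8 = 7)
        then (1 : ℤ) else 0)
        = 2 * ∑ b ∈ range L, if (n : ℤ) = 2 * x ^ 2 + (2 * (b : ℤ) + 1) ^ 2
          ∧ (x * (2 * b + 1) % 8 = 1 ∨ x * (2 * b + 1) % 8 = 7) then (1 : ℤ) else 0 := by
      intro x
      rw [ysum]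
      · intro z
        have : (x * -z % 8 = 1 ∨ x * -z % 8 = 7) ↔ (x * z % 8 = 1 ∨ x * z % 8 = 7) := by
          rw [mul_neg]
          generalize x * z = u
          omega
        simp only [neg_sq, this]
      · intro z hz
        rw [if_neg]; intro h
        have := (xz_odd x z h.2).2
        omega
      · intro z hz
        rw [if_neg]; intro h
        nlinarith [hbig z hz, sq_nonneg x, h.1]
    simp only [e1]
    rw [← mul_sum, ysum]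
    · unfold PB
      have e2 : ∀ (a b : ℕ), 2 * (if (n : ℤ) = 2 * (2 * (a : ℤ) + 1) ^ 2 + (2 * (b : ℤ) + 1) ^ 2
          ∧ ((2 * (a : ℤ) + 1) * (2 * b + 1) % 8 = 1 ∨ (2 * (a : ℤ) + 1) * (2 * b + 1) % 8 = 7) then (1 : ℤ) else 0)
          = (if 2 * (2 * (a : ℤ) + 1) ^ 2 + (2 * b + 1) ^ 2 = n then 1 else 0)
            + sig3 n * (if 2 * (2 * (a : ℤ) + 1) ^ 2 + (2 * b + 1) ^ 2 = n then tw (2 * a + 1) else 0) := by
        intro a b
        by_cases h : 2 * (2 * (a : ℤ) + 1) ^ 2 + (2 * b + 1) ^ 2 = n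
        · rw [if_pos h, if_pos h]
          have h1 := tw_two (n := n) (x := 2 * (a : ℤ) + 1) (z := 2 * b + 1) (by omega) (by omega) (by omega) h
          have h2 := tw_xz (2 * (a : ℤ) + 1) (2 * b + 1) (by omega) (by omega)
          rw [h1] at h2
          have h3 : sig3 (n : ℤ) = 1 ∨ sig3 (n : ℤ) = -1 := by unfold sig3; split_ifs <;> simp
          by_cases h4 : tw (2 * (a : ℤ) + 1) = sig3 n
          · rw [if_pos ⟨h.symm, h2.2 h4⟩, h4]
            rcases h3 with h3 | h3 <;> rw [h3] <;> norm_num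
          · rw [if_neg (fun h' => h4 (h2.1 h'.2))]
            rcases h3 with h3 | h3 <;> rcases tw_cases (2 * (a : ℤ) + 1) with h5 | h5 <;> rw [h3, h5] at h4 ⊢ <;>
              first | (norm_num; done) | exact absurd rfl h4
        · rw [if_neg h, if_neg h, if_neg (fun h' => h h'.1.symm)]; ring
      have e3 : 2 * ∑ a ∈ range L, ∑ b ∈ range L, (if (n : ℤ) = 2 * (2 * (a : ℤ) + 1) ^ 2 + (2 * (b : ℤ) + 1) ^ 2
          ∧ ((2 * (a : ℤ) + 1) * (2 * b + 1) % 8 = 1 ∨ (2 * (a : ℤ) + 1) * (2 * b + 1) % 8 = 7) then (1 : ℤ) else 0)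
          = ∑ a ∈ range L, ∑ b ∈ range L, (if 2 * (2 * (a : ℤ) + 1) ^ 2 + (2 * (b : ℤ) + 1) ^ 2 = n then (1 : ℤ) else 0)
            + sig3 n * ∑ a ∈ range L, ∑ b ∈ range L,
              (if 2 * (2 * (a : ℤ) + 1) ^ 2 + (2 * (b : ℤ) + 1) ^ 2 = n then tw (2 * a + 1) else 0) := by
        simp only [mul_sum, ← sum_add_distrib]
        apply sum_congr rfl; intro a _
        apply sum_congr rfl; intro b _
        exact e2 a b
      rw [e3]
    · intro x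
      apply sum_congr rfl; intro b _
      have : (-x * (2 * (b : ℤ) + 1) % 8 = 1 ∨ -x * (2 * (b : ℤ) + 1) % 8 = 7)
          ↔ (x * (2 * (b : ℤ) + 1) % 8 = 1 ∨ x * (2 * (b : ℤ) + 1) % 8 = 7) := by
        rw [neg_mul]
        generalize x * (2 * (b : ℤ) + 1) = u
        omega
      simp only [neg_sq, this]
    · intro x hx
      apply sum_eq_zero; intro b _
      rw [if_neg]; intro h
      have := (xz_odd x _ h.2).1
      omega
    · intro x hx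
      apply sum_eq_zero; intro b _
      rw [if_neg]; intro h
      nlinarith [hbig x hx, sq_nonneg (2 * (b : ℤ) + 1), h.1]
  · intro x y h
    obtain ⟨h, _⟩ := h
    refine ⟨lt_of_sq n hL' ?_, lt_of_sq n hL' ?_⟩ <;>
      nlinarith [sq_nonneg y, sq_nonneg x]

/-- `n ≡ 3 mod 8`: Tunnell's number modulo 32 -/
theorem mod32_three (n : ℕ) (hn : n % 8 = 3) (h3 : ∀ k : ℕ, n ≠ 3 * k ^ 2) :
    (12 : ℤ) ∣ ((N9003ba20.B n).ncard : ℤ) ∧
    cT n ≡ -(((N9003ba20.B n).ncard : ℤ) / 3) + 4 * Rc3 n [ZMOD 32] := by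
  have h3' : ∀ k : ℤ, (n : ℤ) ≠ 3 * k ^ 2 := by
    intro k hk
    apply h3 k.natAbs
    have : ((n : ℕ) : ℤ) = ((3 * k.natAbs ^ 2 : ℕ) : ℤ) := by
      push_cast; rw [sq_abs]; exact hk
    exact_mod_cast this
  obtain ⟨U, K, h4, h5⟩ := three_main n (by omega) (2 * n + 3) h3'
  have hs : sig3 (n : ℤ) * sig3 (n : ℤ) = 1 := by unfold sig3; split_ifs <;> norm_num
  rw [R_PB n hn _ le_rfl, c_PS n hn _ le_rfl, B_PS n hn _ le_rfl, h4, h5]
  refine ⟨⟨2 * U + PB n (2 * n + 3) (fun _ => 1), by ring⟩, ?_⟩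
  rw [show 4 * (6 * U + 3 * PB (n : ℤ) (2 * n + 3) (fun _ => 1))
    = 3 * (8 * U + 4 * PB (n : ℤ) (2 * n + 3) (fun _ => 1)) by ring, Int.mul_ediv_cancel_left _ (by norm_num)]
  apply Int.ModEq.symm
  rw [Int.modEq_iff_dvd]
  refine ⟨sig3 n * K, ?_⟩
  linear_combination (-(8 * U) + 4 * PB (n : ℤ) (2 * n + 3) (fun _ => 1)) * hs

end Pool.Agent.TUN
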