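import Pool.Agent.Lib_helper7.TUN.Three2
import Pool.Agent.Lib_helper72.TM32.E3d

set_option autoImplicit false

/-! For `n ≡ 3 mod 8`: `r_3(n) = 2|B_n|`, hence `|B_n| = 4 #Cl(ℤ[√-n])` for squarefree `n`. -/

namespace Pool.Agent.TUN

open N9003ba20

/-- `(X, Y, Z) ↦ (X+2Z, X-2Z, Y)` -/
def fOne (v : ℤ × ℤ × ℤ) : ℤ × ℤ × ℤ := (v.1 + 2 * v.2.2, v.1 - 2 * v.2.2, v.2.1)
/-- `(X, Y, Z) ↦ (X+2Z, -X+2Z, Y)` -/
def fTwo (v : ℤ × ℤ × ℤ) : ℤ × ℤ × ℤ := (v.1 + 2 * v.2.2, -v.1 + 2 * v.2.2, v.2.1)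

lemma fOne_inj : Function.Injective fOne := by
  rintro ⟨a, b, c⟩ ⟨a', b', c'⟩ h
  simp only [fOne, Prod.mk.injEq] at h ⊢
  obtain ⟨h1, h2, h3⟩ := h
  refine ⟨by omega, h3, by omega⟩

lemma fTwo_inj : Function.Injective fTwo := by
  rintro ⟨a, b, c⟩ ⟨a', b', c'⟩ h
  simp only [fTwo, Prod.mk.injEq] at h ⊢
  obtain ⟨h1, h2, h3⟩ := h
  refine ⟨by omega, h3, by omega⟩

lemma sqm8 (x : ℤ) : x ^ 2 % 8 = (x % 8) ^ 2 % 8 := by rw [pow_two, pow_two, Int.mul_emod]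

lemma all_odd {n : ℕ} (hn : n % 8 = 3) {x y z : ℤ} (h : x ^ 2 + y ^ 2 + z ^ 2 = n) :
    x % 2 = 1 ∧ y % 2 = 1 ∧ z % 2 = 1 := by
  have h1 : (x ^ 2 + y ^ 2 + z ^ 2) % 8 = 3 := by rw [h]; omega
  have hx := sqm8 x
  have hy := sqm8 y
  have hz := sqm8 z
  have ax : x % 8 = 0 ∨ x % 8 = 1 ∨ x % 8 = 2 ∨ x % 8 = 3 ∨ x % 8 = 4 ∨ x % 8 = 5 ∨ x % 8 = 6 ∨ x % 8 = 7 := by
    omega
  have ay : y % 8 = 0 ∨ y % 8 = 1 ∨ y % 8 = 2 ∨ y % 8 = 3 ∨ y % 8 = 4 ∨ y % 8 = 5 ∨ y % 8 = 6 ∨ y % 8 = 7 := by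
    omega
  have az : z % 8 = 0 ∨ z % 8 = 1 ∨ z % 8 = 2 ∨ z % 8 = 3 ∨ z % 8 = 4 ∨ z % 8 = 5 ∨ z % 8 = 6 ∨ z % 8 = 7 := by
    omega
  rcases ax with e | e | e | e | e | e | e | e <;> rw [e] at hx <;> norm_num at hx <;>
  rcases ay with e' | e' | e' | e' | e' | e' | e' | e' <;> rw [e'] at hy <;> norm_num at hy <;>
  rcases az with e'' | e'' | e'' | e'' | e'' | e'' | e'' | e'' <;> rw [e''] at hz <;> norm_num at hz <;>
  omega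

theorem r3_B (n : ℕ) (hn : n % 8 = 3) :
    {v : ℤ × ℤ × ℤ | v.1 ^ 2 + v.2.1 ^ 2 + v.2.2 ^ 2 = (n : ℤ)}.ncard = 2 * (B n).ncard := by
  have hfin : (B n).Finite := by
    have hb : (Set.Icc (-(n : ℤ)) n ×ˢ (Set.Icc (-(n : ℤ)) n ×ˢ Set.Icc (-(n : ℤ)) n)).Finite :=
      (Set.finite_Icc _ _).prod ((Set.finite_Icc _ _).prod (Set.finite_Icc _ _))
    refine hb.subset ?_
    rintro ⟨x, y, z⟩ h
    have h' : (n : ℤ) = 2 * x ^ 2 + y ^ 2 + 8 * z ^ 2 := h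
    simp only [Set.mem_prod, Set.mem_Icc]
    refine ⟨⟨?_, ?_⟩, ⟨?_, ?_⟩, ?_, ?_⟩ <;> nlinarith [sq_nonneg x, sq_nonneg y, sq_nonneg z,
      sq_nonneg (x + 1), sq_nonneg (x - 1), sq_nonneg (y + 1), sq_nonneg (y - 1), sq_nonneg (z + 1),
      sq_nonneg (z - 1)]
  have hU : {v : ℤ × ℤ × ℤ | v.1 ^ 2 + v.2.1 ^ 2 + v.2.2 ^ 2 = (n : ℤ)} = fOne '' (B n) ∪ fTwo '' (B n) := by
    ext v
    obtain ⟨x, y, z⟩ := v
    simp only [Set.mem_setOf_eq, Set.mem_union, Set.mem_image]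
    constructor
    · intro h
      obtain ⟨hx, hy, hz⟩ := all_odd hn h
      by_cases h4 : (x + y) % 4 = 0
      · right
        refine ⟨((x - y) / 2, z, (x + y) / 4), ?_, ?_⟩
        · show (n : ℤ) = 2 * ((x - y) / 2) ^ 2 + z ^ 2 + 8 * ((x + y) / 4) ^ 2
          obtain ⟨s, hs⟩ : ∃ s, x + y = 4 * s := ⟨(x + y) / 4, by omega⟩
          obtain ⟨t, ht⟩ : ∃ t, x - y = 2 * t := ⟨(x - y) / 2, by omega⟩
          have e1 : (x - y) / 2 = t := by omega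
          have e2 : (x + y) / 4 = s := by omega
          have e3 : x = 2 * s + t := by omega
          have e4 : y = 2 * s - t := by omega
          rw [e1, e2, ← h, e3, e4]; ring
        · simp only [fTwo, Prod.mk.injEq]
          refine ⟨by omega, by omega, trivial⟩
      · left
        refine ⟨((x + y) / 2, z, (x - y) / 4), ?_, ?_⟩
        · show (n : ℤ) = 2 * ((x + y) / 2) ^ 2 + z ^ 2 + 8 * ((x - y) / 4) ^ 2
          obtain ⟨s, hs⟩ : ∃ s, x - y = 4 * s := ⟨(x - y) / 4, by omega⟩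
          obtain ⟨t, ht⟩ : ∃ t, x + y = 2 * t := ⟨(x + y) / 2, by omega⟩
          have e1 : (x + y) / 2 = t := by omega
          have e2 : (x - y) / 4 = s := by omega
          have e3 : x = t + 2 * s := by omega
          have e4 : y = t - 2 * s := by omega
          rw [e1, e2, ← h, e3, e4]; ring
        · simp only [fOne, Prod.mk.injEq]
          refine ⟨by omega, by omega, trivial⟩
    · rintro (⟨⟨a, b, c⟩, h, e⟩ | ⟨⟨a, b, c⟩, h, e⟩)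
      · have h' : (n : ℤ) = 2 * a ^ 2 + b ^ 2 + 8 * c ^ 2 := h
        simp only [fOne, Prod.mk.injEq] at e
        rw [h', ← e.1, ← e.2.1, ← e.2.2]; ring
      · have h' : (n : ℤ) = 2 * a ^ 2 + b ^ 2 + 8 * c ^ 2 := h
        simp only [fTwo, Prod.mk.injEq] at e
        rw [h', ← e.1, ← e.2.1, ← e.2.2]; ring
  have hD : Disjoint (fOne '' (B n)) (fTwo '' (B n)) := by
    rw [Set.disjoint_left]
    rintro v ⟨⟨a, b, c⟩, h, rfl⟩ ⟨⟨a', b', c'⟩, h', e⟩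
    have h1 : (n : ℤ) = 2 * a ^ 2 + b ^ 2 + 8 * c ^ 2 := h
    have h2 : (n : ℤ) = 2 * a' ^ 2 + b' ^ 2 + 8 * c' ^ 2 := h'
    have o1 := odd_of_eq (n := (n : ℤ)) (by omega) h1
    have o2 := odd_of_eq (n := (n : ℤ)) (by omega) h2
    simp only [fOne, fTwo, Prod.mk.injEq] at e
    omega
  rw [hU, Set.ncard_union_eq hD (hfin.image _) (hfin.image _), Set.ncard_image_of_injective _ fOne_inj,
    Set.ncard_image_of_injective _ fTwo_inj]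
  ring

/-- for squarefree `n ≡ 3 mod 8`: `|B_n| = 4 #Cl(ℤ[√-n])` -/
theorem card_B3 (n : ℕ) [NeZero n] (hs : Squarefree n) (hn : n % 8 = 3) :
    Finite (ClassGroup (Zsqrtd (-(n : ℤ)))) ∧ (B n).ncard = 4 * Nat.card (ClassGroup (Zsqrtd (-(n : ℤ)))) := by
  obtain ⟨h1, h2⟩ := TM32.r3_three n hs hn
  refine ⟨h1, ?_⟩
  have h3 := r3_B n hn
  have h4 : {v : ℤ × ℤ × ℤ | v.1 ^ 2 + v.2.1 ^ 2 + v.2.2 ^ 2 = (n : ℤ)}.ncard =
    8 * Nat.card (ClassGroup (Zsqrtd (-(n : ℤ)))) := h2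
  omega

end Pool.Agent.TUN
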