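import Pool.Agent.Lib_helper7.TUN.Theta

set_option autoImplicit false

/-!
# Coefficients: the two identities as statements on signed sums over a box
-/

namespace Pool.Agent.TUN

open Finset Polynomial

/-- the box -/
noncomputable abbrev J (L : ℕ) : Finset ℤ := Finset.Ico (-(L : ℤ)) L

lemma sum_box {R : Type*} [AddCommMonoid R] (f : ℤ → R) (L : ℕ) :
    ∑ s ∈ J L, f s = ∑ k ∈ range L, (f k + f (-(k + 1))) := by
  induction L with
  | zero => simp
  | succ L ih =>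
    have h : J (L + 1) = insert (-((L : ℤ) + 1)) (insert (L : ℤ) (J L)) := by
      ext x
      simp only [Finset.mem_insert, Finset.mem_Ico]
      push_cast
      omega
    rw [h, sum_insert, sum_insert, ih, sum_range_succ]
    · rw [add_comm (f (-((L : ℤ) + 1))), add_comm (f (L : ℤ)), add_assoc]
    · simp
    · simp only [Finset.mem_insert, Finset.mem_Ico]; omega

/-- the sign `(-1)^s` -/
def sg (s : ℤ) : ℤ := if s % 2 = 0 then 1 else -1

lemma sg_nat (k : ℕ) : sg k = (-1) ^ k := by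
  unfold sg
  rcases Nat.even_or_odd k with h | h
  · rw [h.neg_one_pow, if_pos]; obtain ⟨m, rfl⟩ := h; push_cast; omega
  · rw [h.neg_one_pow, if_neg]; obtain ⟨m, rfl⟩ := h; push_cast; omega

lemma sg_neg (s : ℤ) : sg (-s) = sg s := by
  unfold sg
  have : (-s) % 2 = 0 ↔ s % 2 = 0 := by omega
  simp only [this]

lemma Phi_box {S : Type*} [CommRing S] (q : S) (N : ℕ) :
    Phi q N = ∑ s ∈ J (N + 1), ((sg s : ℤ) : S) * q ^ (s.natAbs ^ 2) := by
  rw [sum_box]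
  unfold Phi
  apply sum_congr rfl
  intro k _
  have h1 : (-((k : ℤ) + 1)).natAbs = k + 1 := by omega
  rw [sg_neg, h1, Int.natAbs_natCast, sg_nat, show ((k : ℤ) + 1) = ((k + 1 : ℕ) : ℤ) by push_cast; ring, sg_nat]
  push_cast
  rw [show (k + 1) ^ 2 = k ^ 2 + (2 * k + 1) by ring, pow_add q]
  ring

section

lemma map_Psi {R S : Type*} [CommRing R] [CommRing S] (φ : R →+* S) (q : R) (N : ℕ) :
    φ (Psi q N) = Psi (φ q) N := by
  unfold Psi; simp [map_sum]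

lemma map_Phi {R S : Type*} [CommRing R] [CommRing S] (φ : R →+* S) (q : R) (N : ℕ) :
    φ (Phi q N) = Phi (φ q) N := by
  unfold Phi; simp [map_sum]

lemma map_G {R S : Type*} [CommRing R] [CommRing S] (φ : R →+* S) (q : R) (N : ℕ) :
    φ (G q N) = G (φ q) N := by
  unfold G; simp [map_sum, map_ofNat]

lemma coeff_of_mk {n : ℕ} {P Q : ℤ[X]}
    (h : Ideal.Quotient.mk (Ideal.span {(X : ℤ[X]) ^ (n + 1)}) P
      = Ideal.Quotient.mk (Ideal.span {(X : ℤ[X]) ^ (n + 1)}) Q) : P.coeff n = Q.coeff n := by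
  rw [Ideal.Quotient.eq, Ideal.mem_span_singleton, X_pow_dvd_iff] at h
  have := h n (by omega)
  rw [coeff_sub] at this
  linarith

lemma mk_nil (n : ℕ) :
    ((Ideal.Quotient.mk (Ideal.span {(X : ℤ[X]) ^ (n + 1)}) X) ^ 8) ^ (n + 1) = 0 := by
  rw [← pow_mul, mul_comm, pow_mul, ← map_pow, Ideal.Quotient.eq_zero_iff_mem.mpr, zero_pow (by norm_num)]
  exact Ideal.mem_span_singleton_self _

lemma coeff1 {n N : ℕ} (hN : 2 * n + 2 ≤ N) :
    (X * Psi ((X : ℤ[X]) ^ 8) N * Phi ((X : ℤ[X]) ^ 8) N ^ 2).coeff n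
      = (X * G ((X : ℤ[X]) ^ 8) N).coeff n := by
  apply coeff_of_mk
  rw [map_mul, map_mul, map_pow, map_mul, map_Psi, map_Phi, map_G, map_pow, mul_assoc,
    psi_phi_sq (mk_nil n) hN]

lemma coeff2 {n N : ℕ} (hN : 2 * n + 2 ≤ N) :
    (X * Psi ((X : ℤ[X]) ^ 8) N * Phi ((X : ℤ[X]) ^ 8) N).coeff n
      = (X * Psi (-(X : ℤ[X]) ^ 8) N * Phi (((X : ℤ[X]) ^ 8) ^ 2) N).coeff n := by
  apply coeff_of_mk
  rw [map_mul, map_mul, map_mul, map_mul, map_Psi, map_Phi, map_Psi, map_Phi, map_neg, map_pow, map_pow,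
    map_pow, mul_assoc, mul_assoc, psi_phi (mk_nil n) hN]

lemma eight_T (k : ℕ) : 8 * T k + 1 = (2 * k + 1) ^ 2 := by
  have := two_T k
  nlinarith

lemma XPsi (N : ℕ) : X * Psi ((X : ℤ[X]) ^ 8) N = ∑ k ∈ range (N + 1), X ^ ((2 * k + 1) ^ 2) := by
  unfold Psi
  rw [mul_sum]
  apply sum_congr rfl
  intro k _
  rw [← eight_T, pow_add, pow_mul]; ring

lemma XPsi' (N : ℕ) : X * Psi (-(X : ℤ[X]) ^ 8) N
    = ∑ k ∈ range (N + 1), (-1) ^ (T k) * X ^ ((2 * k + 1) ^ 2) := by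
  unfold Psi
  rw [mul_sum]
  apply sum_congr rfl
  intro k _
  rw [← eight_T, pow_add, pow_mul, neg_pow]; ring

lemma XG (N : ℕ) : X * G ((X : ℤ[X]) ^ 8) N
    = ∑ k ∈ range (N + 1), ((-1) ^ k * (2 * (k : ℤ[X]) + 1)) * X ^ ((2 * k + 1) ^ 2) := by
  unfold G
  rw [mul_sum]
  apply sum_congr rfl
  intro k _
  rw [← eight_T, pow_add, pow_mul]; ring

end

/-- the number of representations, signed -/
lemma F1_pos {n N : ℕ} (hN : 2 * n + 2 ≤ N) (hsq : ∀ k : ℕ, (2 * k + 1) ^ 2 ≠ n) :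
    ∑ k ∈ range (N + 1), ∑ s ∈ J (N + 1), ∑ t ∈ J (N + 1),
      (if (2 * (k : ℤ) + 1) ^ 2 + 8 * s ^ 2 + 8 * t ^ 2 = n then sg s * sg t else 0) = 0 := by
  have h := coeff1 hN
  have hr : (X * G ((X : ℤ[X]) ^ 8) N).coeff n = 0 := by
    rw [XG, finset_sum_coeff]
    apply sum_eq_zero
    intro k _
    have : ((-1) ^ k * (2 * (k : ℤ[X]) + 1)) * X ^ ((2 * k + 1) ^ 2)
        = Polynomial.C ((-1) ^ k * (2 * (k : ℤ) + 1)) * X ^ ((2 * k + 1) ^ 2) := by simp
    rw [this, coeff_C_mul, coeff_X_pow, if_neg (fun h => hsq k h.symm), mul_zero]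
  rw [hr] at h
  have e : X * Psi ((X : ℤ[X]) ^ 8) N * Phi ((X : ℤ[X]) ^ 8) N ^ 2
      = ∑ k ∈ range (N + 1), ∑ s ∈ J (N + 1), ∑ t ∈ J (N + 1),
        Polynomial.C (sg s * sg t) * X ^ ((2 * k + 1) ^ 2 + 8 * s.natAbs ^ 2 + 8 * t.natAbs ^ 2) := by
    rw [XPsi, Phi_box, pow_two, sum_mul]
    apply sum_congr rfl
    intro k _
    rw [sum_mul_sum, mul_sum]
    apply sum_congr rfl
    intro s _
    rw [mul_sum]
    apply sum_congr rfl
    intro t _
    rw [pow_add, pow_add, pow_mul, pow_mul]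
    simp only [map_mul, eq_intCast]
    ring
  rw [e] at h
  simp only [finset_sum_coeff, coeff_C_mul, coeff_X_pow, mul_ite, mul_one, mul_zero] at h
  have c1 : ∀ (k : ℕ) (s t : ℤ), ((2 * (k : ℤ) + 1) ^ 2 + 8 * s ^ 2 + 8 * t ^ 2 = n)
      ↔ (n = (2 * k + 1) ^ 2 + 8 * s.natAbs ^ 2 + 8 * t.natAbs ^ 2) := by
    intro k s t
    rw [← Int.natCast_inj]
    push_cast
    rw [sq_abs, sq_abs]
    exact eq_comm
  simp only [c1]
  exact h

/-- the sign `(-1)^((N-1)/8)` -/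
def sig (N : ℤ) : ℤ := if N % 16 = 1 then 1 else -1

lemma F2_pos {n N : ℕ} (hN : 2 * n + 2 ≤ N) (hn : n % 8 = 1) :
    ∑ k ∈ range (N + 1), ∑ s ∈ J (N + 1),
      (if (2 * (k : ℤ) + 1) ^ 2 + 8 * s ^ 2 = n then sg s else 0)
    = sig n * ∑ k ∈ range (N + 1), ∑ s ∈ J (N + 1),
      (if (2 * (k : ℤ) + 1) ^ 2 + 16 * s ^ 2 = n then sg s else 0) := by
  have h := coeff2 hN
  have e1 : X * Psi ((X : ℤ[X]) ^ 8) N * Phi ((X : ℤ[X]) ^ 8) N
      = ∑ k ∈ range (N + 1), ∑ s ∈ J (N + 1),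
        Polynomial.C (sg s) * X ^ ((2 * k + 1) ^ 2 + 8 * s.natAbs ^ 2) := by
    rw [XPsi, Phi_box, sum_mul]
    apply sum_congr rfl
    intro k _
    rw [mul_sum]
    apply sum_congr rfl
    intro s _
    rw [pow_add, pow_mul]
    simp only [eq_intCast]
    ring
  have e2 : X * Psi (-(X : ℤ[X]) ^ 8) N * Phi (((X : ℤ[X]) ^ 8) ^ 2) N
      = ∑ k ∈ range (N + 1), ∑ s ∈ J (N + 1),
        Polynomial.C ((-1) ^ (T k) * sg s) * X ^ ((2 * k + 1) ^ 2 + 16 * s.natAbs ^ 2) := by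
    rw [XPsi', Phi_box, sum_mul]
    apply sum_congr rfl
    intro k _
    rw [mul_sum]
    apply sum_congr rfl
    intro s _
    rw [pow_add, pow_mul X 16, ← pow_mul X 8 2]
    simp only [map_mul, map_pow, map_neg, map_one, eq_intCast]
    ring
  rw [e1, e2] at h
  simp only [finset_sum_coeff, coeff_C_mul, coeff_X_pow] at h
  have c1 : ∀ (k : ℕ) (s : ℤ), ((2 * (k : ℤ) + 1) ^ 2 + 8 * s ^ 2 = n)
      ↔ (n = (2 * k + 1) ^ 2 + 8 * s.natAbs ^ 2) := by
    intro k s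
    rw [← Int.natCast_inj]
    push_cast
    rw [sq_abs]
    exact eq_comm
  have c2 : ∀ (k : ℕ) (s : ℤ), ((2 * (k : ℤ) + 1) ^ 2 + 16 * s ^ 2 = n)
      ↔ (n = (2 * k + 1) ^ 2 + 16 * s.natAbs ^ 2) := by
    intro k s
    rw [← Int.natCast_inj]
    push_cast
    rw [sq_abs]
    exact eq_comm
  simp only [c1, c2, mul_sum]
  simp only [mul_ite, mul_one, mul_zero] at h ⊢
  rw [h]
  apply sum_congr rfl
  intro k _
  apply sum_congr rfl
  intro s _
  split_ifs with hc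
  · congr 1
    rw [← eight_T] at hc
    unfold sig
    rcases Nat.even_or_odd (T k) with hT | hT
    · rw [hT.neg_one_pow, if_pos]
      obtain ⟨m, hm⟩ := hT
      rw [hm] at hc
      generalize s.natAbs ^ 2 = u at hc
      omega
    · rw [hT.neg_one_pow, if_neg]
      obtain ⟨m, hm⟩ := hT
      rw [hm] at hc
      generalize s.natAbs ^ 2 = u at hc
      omega
  · rfl

/-- passing from positive odd `y` to all `y` -/
lemma ysum (L : ℕ) (g : ℤ → ℤ) (hg : ∀ y, g (-y) = g y) (h0 : ∀ y, y % 2 = 0 → g y = 0)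
    (h1 : ∀ y : ℤ, (L : ℤ) ≤ y → g y = 0) :
    ∑ y ∈ J L, g y = 2 * ∑ k ∈ range L, g (2 * k + 1) := by
  rw [sum_box, sum_add_distrib]
  have e1 : ∑ k ∈ range L, g (-((k : ℤ) + 1)) = ∑ k ∈ range L, g (k : ℤ) := by
    have h2 := sum_range_succ' (fun k : ℕ => g (k : ℤ)) L
    have h3 := sum_range_succ (fun k : ℕ => g (k : ℤ)) L
    simp only [hg]
    push_cast at h2
    rw [h0 0 (by norm_num)] at h2
    rw [h1 L (le_refl _)] at h3
    linarith
  have e2 : ∀ m : ℕ, ∑ k ∈ range (2 * m), g (k : ℤ) = ∑ k ∈ range m, g (2 * k + 1) := by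
    intro m
    induction m with
    | zero => simp
    | succ m ih =>
      rw [show 2 * (m + 1) = 2 * m + 1 + 1 by ring, sum_range_succ, sum_range_succ, ih, sum_range_succ]
      push_cast
      rw [h0 (2 * (m : ℤ)) (by omega), add_zero]
  have e3 : ∀ m : ℕ, ∑ k ∈ range (L + m), g (k : ℤ) = ∑ k ∈ range L, g (k : ℤ) := by
    intro m
    induction m with
    | zero => simp
    | succ m ih => rw [← add_assoc, sum_range_succ, ih, h1 _ (by push_cast; omega), add_zero]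
  have e4 := e3 L
  rw [← two_mul, e2] at e4
  rw [e1, ← e4]; ring

end Pool.Agent.TUN
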