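import Pool.Agent.Lib_helper7.TUN.Decomp
import Pool.Prelude.Def_F_25f10a9b

set_option autoImplicit false

/-!
# From cardinalities of sets of integer triples to sums over the box
-/

namespace Pool.Agent.TUN

open Finset

lemma ncard3 (S : Set (ℤ × ℤ × ℤ)) (P : ℤ → ℤ → ℤ → Prop) [∀ x y z, Decidable (P x y z)] (L : ℕ)
    (hS : ∀ x y z, (x, y, z) ∈ S ↔ P x y z)
    (hP : ∀ x y z : ℤ, P x y z → |x| < L ∧ |y| < L ∧ |z| < L) :
    ((S.ncard : ℕ) : ℤ) = ∑ x ∈ J L, ∑ y ∈ J L, ∑ z ∈ J L, if P x y z then 1 else 0 := by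
  have h : S = ↑((J L ×ˢ J L ×ˢ J L).filter (fun v => P v.1 v.2.1 v.2.2)) := by
    ext ⟨x, y, z⟩
    rw [hS]
    simp only [coe_filter, Finset.mem_product, Finset.mem_Ico, Set.mem_setOf_eq]
    constructor
    · intro hp
      obtain ⟨h1, h2, h3⟩ := hP x y z hp
      rw [abs_lt] at h1 h2 h3
      exact ⟨⟨⟨by omega, by omega⟩, ⟨by omega, by omega⟩, ⟨by omega, by omega⟩⟩, hp⟩
    · exact fun hp => hp.2
  rw [h, Set.ncard_coe_finset, card_filter]
  push_cast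
  rw [sum_product]
  apply sum_congr rfl; intro x _
  rw [sum_product]

lemma ncard2 (S : Set (ℤ × ℤ)) (P : ℤ → ℤ → Prop) [∀ x y, Decidable (P x y)] (L : ℕ)
    (hS : ∀ x y, (x, y) ∈ S ↔ P x y)
    (hP : ∀ x y : ℤ, P x y → |x| < L ∧ |y| < L) :
    ((S.ncard : ℕ) : ℤ) = ∑ x ∈ J L, ∑ y ∈ J L, if P x y then 1 else 0 := by
  have h : S = ↑((J L ×ˢ J L).filter (fun v => P v.1 v.2)) := by
    ext ⟨x, y⟩
    rw [hS]
    simp only [coe_filter, Finset.mem_product, Finset.mem_Ico, Set.mem_setOf_eq]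
    constructor
    · intro hp
      obtain ⟨h1, h2⟩ := hP x y hp
      rw [abs_lt] at h1 h2
      exact ⟨⟨⟨by omega, by omega⟩, ⟨by omega, by omega⟩⟩, hp⟩
    · exact fun hp => hp.2
  rw [h, Set.ncard_coe_finset, card_filter]
  push_cast
  rw [sum_product]

/-- only even arguments contribute -/
lemma halve (L : ℕ) (g : ℤ → ℤ) (h0 : ∀ x, x % 2 ≠ 0 → g x = 0) (h1 : ∀ x : ℤ, (L : ℤ) ≤ |x| → g x = 0) :
    ∑ x ∈ J L, g x = ∑ x ∈ J L, g (2 * x) := by
  symm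
  apply sum_bij_ne_zero (fun v _ _ => 2 * v)
  · intro v _ hv
    have a1 : ¬ ((L : ℤ) ≤ |2 * v|) := fun hh => hv (h1 _ hh)
    rw [not_le, abs_lt] at a1
    simp only [Finset.mem_Ico]
    omega
  · intro v _ _ w _ _ hvw; omega
  · intro w hw hw0
    have a0 : w % 2 = 0 := by
      by_contra hc; exact hw0 (h0 _ hc)
    simp only [Finset.mem_Ico] at hw
    refine ⟨w / 2, by simp only [Finset.mem_Ico]; omega, ?_, by omega⟩
    rw [show 2 * (w / 2) = w by omega]; exact hw0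
  · intro v _ _; rfl

lemma lt_of_sq {x : ℤ} {L : ℕ} (n : ℤ) (hL : 2 * n + 3 ≤ L) (h : x ^ 2 ≤ n) : |x| < L := by
  by_contra hc
  have := sq_lt_of x n L hL (not_lt.mp hc)
  linarith

lemma sq8 (y : ℤ) : ∃ k, (y % 2 = 0 ∧ y ^ 2 = 4 * k) ∨ (y % 2 ≠ 0 ∧ y ^ 2 = 8 * k + 1) := by
  rcases Int.even_or_odd' y with ⟨m, rfl | rfl⟩
  · exact ⟨m ^ 2, Or.inl ⟨by omega, by ring⟩⟩
  · obtain ⟨k, hk⟩ := Int.even_mul_succ_self m
    exact ⟨k, Or.inr ⟨by omega, by linear_combination 4 * hk⟩⟩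

/-- `2x² + y² ≡ 1 mod 8` forces `x` even -/
lemma x_even {n x y u : ℤ} (hn : n % 8 = 1) (h : n = 2 * x ^ 2 + y ^ 2 + 8 * u) : x % 2 = 0 := by
  obtain ⟨k, ⟨h1, h2⟩ | ⟨h1, h2⟩⟩ := sq8 x
  · exact h1
  · obtain ⟨l, ⟨h3, h4⟩ | ⟨h3, h4⟩⟩ := sq8 y <;> rw [h2, h4] at h <;> omega

/-- halving the first variable, general form -/
lemma halve_x (n : ℕ) (hn : n % 8 = 1) (L : ℕ) (hL : 2 * n + 3 ≤ L) (c : ℤ) (hc : 0 ≤ c) (hc8 : c % 8 = 0) :
    (∑ x ∈ J L, ∑ y ∈ J L, ∑ z ∈ J L, if (n : ℤ) = 2 * x ^ 2 + y ^ 2 + c * z ^ 2 then (1 : ℤ) else 0)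
      = ∑ y ∈ J L, ∑ s ∈ J L, ∑ z ∈ J L, if y ^ 2 + 8 * s ^ 2 + c * z ^ 2 = n then (1 : ℤ) else 0 := by
  have hL' : 2 * (n : ℤ) + 3 ≤ L := by exact_mod_cast hL
  rw [halve L (fun x => ∑ y ∈ J L, ∑ z ∈ J L, if (n : ℤ) = 2 * x ^ 2 + y ^ 2 + c * z ^ 2 then (1 : ℤ) else 0)]
  · rw [sum_comm]
    apply sum_congr rfl; intro y _
    apply sum_congr rfl; intro s _
    apply sum_congr rfl; intro t _
    have h1 : ((n : ℤ) = 2 * (2 * s) ^ 2 + y ^ 2 + c * t ^ 2)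
        ↔ (y ^ 2 + 8 * s ^ 2 + c * t ^ 2 = n) := by
      constructor <;> intro h <;> linarith
    simp only [h1]
  · intro x hx
    apply sum_eq_zero; intro y _
    apply sum_eq_zero; intro z _
    rw [if_neg]
    intro h
    obtain ⟨c', rfl⟩ : ∃ w, c = 8 * w := ⟨c / 8, by omega⟩
    exact hx (x_even (n := n) (x := x) (y := y) (by omega) (u := c' * z ^ 2) (by rw [h]; ring))
  · intro x hx
    apply sum_eq_zero; intro y _
    apply sum_eq_zero; intro z _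
    rw [if_neg]
    intro h
    have := sq_lt_of x n L hL' hx
    nlinarith [sq_nonneg y, mul_nonneg hc (sq_nonneg z), sq_nonneg x]

lemma countB (n : ℕ) (hn : n % 8 = 1) (L : ℕ) (hL : 2 * n + 3 ≤ L) :
    (((N9003ba20.B n).ncard : ℕ) : ℤ) = Q 8 8 n L (fun _ => 1) (fun _ => 1) := by
  have hL' : 2 * (n : ℤ) + 3 ≤ L := by exact_mod_cast hL
  rw [ncard3 _ (fun x y z => (n : ℤ) = 2 * x ^ 2 + y ^ 2 + 8 * z ^ 2) L (fun x y z => Iff.rfl),
    halve_x n hn L hL 8 (by norm_num) (by norm_num)]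
  · unfold Q
    simp only [mul_one]
  · intro x y z h
    refine ⟨lt_of_sq n hL' ?_, lt_of_sq n hL' ?_, lt_of_sq n hL' ?_⟩ <;>
      nlinarith [sq_nonneg y, sq_nonneg z, sq_nonneg x]

lemma ev_two (t : ℤ) : ev (2 * t) = 1 := by unfold ev; rw [if_pos (by omega)]

lemma ev_of_odd {x : ℤ} (hx : x % 2 ≠ 0) : ev x = 0 := by unfold ev; rw [if_neg hx]

lemma countA (n : ℕ) (hn : n % 8 = 1) (L : ℕ) (hL : 2 * n + 3 ≤ L) :
    (((N9003ba20.A n).ncard : ℕ) : ℤ) = Q 8 8 n L (fun _ => 1) ev := by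
  have hL' : 2 * (n : ℤ) + 3 ≤ L := by exact_mod_cast hL
  rw [ncard3 _ (fun x y z => (n : ℤ) = 2 * x ^ 2 + y ^ 2 + 32 * z ^ 2) L (fun x y z => Iff.rfl),
    halve_x n hn L hL 32 (by norm_num) (by norm_num)]
  · unfold Q
    apply sum_congr rfl; intro y _
    apply sum_congr rfl; intro s _
    rw [halve L (fun t => if y ^ 2 + 8 * s ^ 2 + 8 * t ^ 2 = n then 1 * ev t else 0)]
    · apply sum_congr rfl; intro t _
      have h1 : (y ^ 2 + 8 * s ^ 2 + 32 * t ^ 2 = n) ↔ (y ^ 2 + 8 * s ^ 2 + 8 * (2 * t) ^ 2 = n) := by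
        constructor <;> intro h <;> linarith
      simp only [h1, ev_two, mul_one]
    · intro x hx
      simp [ev_of_odd hx]
    · intro x hx
      rw [if_neg]
      intro h
      have := sq_lt_of x n L hL' hx
      nlinarith [sq_nonneg y, sq_nonneg s, sq_nonneg x]
  · intro x y z h
    refine ⟨lt_of_sq n hL' ?_, lt_of_sq n hL' ?_, lt_of_sq n hL' ?_⟩ <;>
      nlinarith [sq_nonneg y, sq_nonneg z, sq_nonneg x]

/-- binary counts -/
lemma countD (c : ℤ) (hc : 0 < c) (n : ℕ) (L : ℕ) (hL : 2 * n + 3 ≤ L) :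
    ((({v : ℤ × ℤ | (n : ℤ) = v.1 ^ 2 + 4 * c * v.2 ^ 2}).ncard : ℕ) : ℤ) = D c n L ev := by
  have hL' : 2 * (n : ℤ) + 3 ≤ L := by exact_mod_cast hL
  rw [ncard2 _ (fun x y => (n : ℤ) = x ^ 2 + 4 * c * y ^ 2) L (fun x y => Iff.rfl)]
  · unfold D
    apply sum_congr rfl; intro y _
    rw [halve L (fun s => if y ^ 2 + c * s ^ 2 = n then ev s else 0)]
    · apply sum_congr rfl; intro t _
      have h1 : ((n : ℤ) = y ^ 2 + 4 * c * t ^ 2) ↔ (y ^ 2 + c * (2 * t) ^ 2 = n) := by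
        constructor <;> intro h <;> linarith
      simp only [h1, ev_two]
    · intro x hx
      simp [ev_of_odd hx]
    · intro x hx
      rw [if_neg]
      intro h
      have := sq_lt_of x n L hL' hx
      nlinarith [sq_nonneg y, sq_nonneg x]
  · intro x y h
    refine ⟨lt_of_sq n hL' ?_, lt_of_sq n hL' ?_⟩ <;>
      nlinarith [mul_nonneg hc.le (sq_nonneg y), sq_nonneg y, sq_nonneg x]

lemma countR (n : ℕ) (L : ℕ) (hL : 2 * n + 3 ≤ L) :
    ((({v : ℤ × ℤ | (n : ℤ) = v.1 ^ 2 + 16 * v.2 ^ 2 ∧ v.2 % 2 = 1}).ncard : ℕ) : ℤ) = D 16 n L od := by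
  have hL' : 2 * (n : ℤ) + 3 ≤ L := by exact_mod_cast hL
  rw [ncard2 _ (fun x y => (n : ℤ) = x ^ 2 + 16 * y ^ 2 ∧ y % 2 = 1) L (fun x y => Iff.rfl)]
  · unfold D
    apply sum_congr rfl; intro y _
    apply sum_congr rfl; intro t _
    have h1 : ((n : ℤ) = y ^ 2 + 16 * t ^ 2 ∧ t % 2 = 1) ↔ (y ^ 2 + 16 * t ^ 2 = n ∧ t % 2 = 1) := by
      constructor <;> intro h <;> exact ⟨by linarith [h.1], h.2⟩
    simp only [h1]
    unfold od
    by_cases ht : t % 2 = 0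
    · simp [ht]
    · have : t % 2 = 1 := by omega
      simp [this]
  · intro x y h
    obtain ⟨h, _⟩ := h
    refine ⟨lt_of_sq n hL' ?_, lt_of_sq n hL' ?_⟩ <;>
      nlinarith [sq_nonneg y, sq_nonneg x]

/-- `x` odd, `x² + y² + 2z² ≡ 1 mod 8`: then `4 ∣ y` and `2 ∣ z` -/
lemma yz_even {n x y z : ℤ} (hn : n % 8 = 1) (hx : x % 2 ≠ 0) (h : n = x ^ 2 + y ^ 2 + 2 * z ^ 2) :
    y % 4 = 0 ∧ z % 2 = 0 := by
  obtain ⟨k, ⟨h1, h2⟩ | ⟨h1, h2⟩⟩ := sq8 x
  · exact absurd h1 hx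
  rw [h2] at h
  have hy : y % 2 = 0 := by
    obtain ⟨l, ⟨h3, h4⟩ | ⟨h3, h4⟩⟩ := sq8 y
    · exact h3
    · rw [h4] at h; generalize z ^ 2 = u at h; omega
  obtain ⟨w, rfl⟩ : ∃ w, y = 2 * w := ⟨y / 2, by omega⟩
  have h5 : (2 * w) ^ 2 = 4 * w ^ 2 := by ring
  rw [h5] at h
  have hz : z % 2 = 0 := by
    obtain ⟨m, ⟨h3, h4⟩ | ⟨h3, h4⟩⟩ := sq8 z
    · exact h3
    · rw [h4] at h; generalize w ^ 2 = u at h; omega
  refine ⟨?_, hz⟩
  obtain ⟨m, ⟨h3, h4⟩ | ⟨h3, h4⟩⟩ := sq8 z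
  · rw [h4] at h
    obtain ⟨l, ⟨h6, h7⟩ | ⟨h6, h7⟩⟩ := sq8 w
    · omega
    · rw [h7] at h; omega
  · exact absurd hz h3

lemma countE (n : ℕ) (hn : n % 8 = 1) (L : ℕ) (hL : 2 * n + 3 ≤ L) :
    ((({v : ℤ × ℤ × ℤ | (n : ℤ) = v.1 ^ 2 + v.2.1 ^ 2 + 2 * v.2.2 ^ 2}).ncard : ℕ) : ℤ)
      = 2 * Q 8 16 n L (fun _ => 1) (fun _ => 1) := by
  have hL' : 2 * (n : ℤ) + 3 ≤ L := by exact_mod_cast hL
  rw [ncard3 _ (fun x y z => (n : ℤ) = x ^ 2 + y ^ 2 + 2 * z ^ 2) L (fun x y z => Iff.rfl)]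
  · have e0 : (∑ x ∈ J L, ∑ y ∈ J L, ∑ z ∈ J L, if (n : ℤ) = x ^ 2 + y ^ 2 + 2 * z ^ 2 then (1 : ℤ) else 0)
        = (∑ x ∈ J L, ∑ y ∈ J L, ∑ z ∈ J L, if (n : ℤ) = x ^ 2 + y ^ 2 + 2 * z ^ 2 then od x else 0)
          + ∑ x ∈ J L, ∑ y ∈ J L, ∑ z ∈ J L, if (n : ℤ) = x ^ 2 + y ^ 2 + 2 * z ^ 2 then od y else 0 := by
      simp only [← sum_add_distrib]
      apply sum_congr rfl; intro x _
      apply sum_congr rfl; intro y _
      apply sum_congr rfl; intro z _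
      split_ifs with h
      · obtain ⟨k, ⟨h1, h2⟩ | ⟨h1, h2⟩⟩ := sq8 x <;> obtain ⟨l, ⟨h3, h4⟩ | ⟨h3, h4⟩⟩ := sq8 y <;>
          unfold od <;> simp only [h1, h3, if_true, if_false] <;> rw [h2, h4] at h <;>
          generalize z ^ 2 = u at h <;> omega
      · rfl
    have e1 : (∑ x ∈ J L, ∑ y ∈ J L, ∑ z ∈ J L, if (n : ℤ) = x ^ 2 + y ^ 2 + 2 * z ^ 2 then od y else 0)
        = ∑ x ∈ J L, ∑ y ∈ J L, ∑ z ∈ J L, if (n : ℤ) = x ^ 2 + y ^ 2 + 2 * z ^ 2 then od x else 0 := by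
      rw [sum_comm]
      apply sum_congr rfl; intro x _
      apply sum_congr rfl; intro y _
      apply sum_congr rfl; intro z _
      rw [add_comm (y ^ 2) (x ^ 2)]
    rw [e0, e1, ← two_mul]
    congr 1
    -- now `y = 4 w`, `z = 2 s`
    unfold Q
    apply sum_congr rfl; intro x _
    rw [halve L (fun y => ∑ z ∈ J L, if (n : ℤ) = x ^ 2 + y ^ 2 + 2 * z ^ 2 then od x else 0)]
    · rw [halve L (fun y => ∑ z ∈ J L, if (n : ℤ) = x ^ 2 + (2 * y) ^ 2 + 2 * z ^ 2 then od x else 0)]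
      · rw [sum_comm]
        rw [halve L (fun z => ∑ y ∈ J L, if (n : ℤ) = x ^ 2 + (2 * (2 * y)) ^ 2 + 2 * z ^ 2 then od x else 0)]
        · apply sum_congr rfl; intro s _
          apply sum_congr rfl; intro t _
          have h1 : ((n : ℤ) = x ^ 2 + (2 * (2 * t)) ^ 2 + 2 * (2 * s) ^ 2)
              ↔ (x ^ 2 + 8 * s ^ 2 + 16 * t ^ 2 = n) := by
            constructor <;> intro h <;> linarith
          simp only [h1]
          split_ifs with h
          · have hx : x % 2 ≠ 0 := by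
              intro h0
              obtain ⟨w, rfl⟩ : ∃ w, x = 2 * w := ⟨x / 2, by omega⟩
              exact not_even n hn (2 * w ^ 2 + 4 * s ^ 2 + 8 * t ^ 2) (by rw [← h]; ring)
            unfold od
            rw [if_neg hx]; norm_num
          · rfl
        · intro z hz
          apply sum_eq_zero; intro y _
          split_ifs with h
          · unfold od
            split_ifs with hx
            · rfl
            · exact absurd (yz_even (n := n) (by omega) hx h).2 hz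
          · rfl
        · intro z hz
          apply sum_eq_zero; intro y _
          rw [if_neg]
          intro h
          have := sq_lt_of z n L hL' hz
          nlinarith [sq_nonneg y, sq_nonneg z, sq_nonneg x]
      · intro y hy
        apply sum_eq_zero; intro z _
        split_ifs with h
        · unfold od
          split_ifs with hx
          · rfl
          · have := (yz_even (n := n) (by omega) hx h).1
            omega
        · rfl
      · intro y hy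
        apply sum_eq_zero; intro z _
        rw [if_neg]
        intro h
        have := sq_lt_of y n L hL' hy
        nlinarith [sq_nonneg y, sq_nonneg z, sq_nonneg x]
    · intro y hy
      apply sum_eq_zero; intro z _
      split_ifs with h
      · unfold od
        split_ifs with hx
        · rfl
        · have := (yz_even (n := n) (by omega) hx h).1
          omega
      · rfl
    · intro y hy
      apply sum_eq_zero; intro z _
      rw [if_neg]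
      intro h
      have := sq_lt_of y n L hL' hy
      nlinarith [sq_nonneg y, sq_nonneg z, sq_nonneg x]
  · intro x y z h
    refine ⟨lt_of_sq n hL' ?_, lt_of_sq n hL' ?_, lt_of_sq n hL' ?_⟩ <;>
      nlinarith [sq_nonneg y, sq_nonneg z, sq_nonneg x]

/-- the count of the exact identity -/
lemma countO (n : ℕ) (L : ℕ) (hL : 2 * n + 3 ≤ L) :
    ((({v : ℤ × ℤ × ℤ | (n : ℤ) = v.1 ^ 2 + 16 * v.2.1 ^ 2 + 64 * v.2.2 ^ 2 ∧ v.2.1 % 2 = 1}).ncard : ℕ) : ℤ)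
      = Q 16 16 n L ev od := by
  have hL' : 2 * (n : ℤ) + 3 ≤ L := by exact_mod_cast hL
  rw [ncard3 _ (fun x y z => (n : ℤ) = x ^ 2 + 16 * y ^ 2 + 64 * z ^ 2 ∧ y % 2 = 1) L (fun x y z => Iff.rfl)]
  · unfold Q
    apply sum_congr rfl; intro y _
    rw [sum_comm]
    rw [halve L (fun s => ∑ t ∈ J L, if y ^ 2 + 16 * s ^ 2 + 16 * t ^ 2 = n then ev s * od t else 0)]
    · apply sum_congr rfl; intro s _
      apply sum_congr rfl; intro t _
      have h1 : ((n : ℤ) = y ^ 2 + 16 * t ^ 2 + 64 * s ^ 2 ∧ t % 2 = 1)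
          ↔ (y ^ 2 + 16 * (2 * s) ^ 2 + 16 * t ^ 2 = n ∧ t % 2 = 1) := by
        constructor <;> intro h <;> exact ⟨by linarith [h.1], h.2⟩
      simp only [h1, ev_two]
      unfold od
      by_cases ht : t % 2 = 0
      · simp [ht]
      · have : t % 2 = 1 := by omega
        simp [this]
    · intro x hx
      apply sum_eq_zero; intro t _
      simp [ev_of_odd hx]
    · intro x hx
      apply sum_eq_zero; intro t _
      rw [if_neg]
      intro h
      have := sq_lt_of x n L hL' hx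
      nlinarith [sq_nonneg y, sq_nonneg t, sq_nonneg x]
  · intro x y z h
    obtain ⟨h, _⟩ := h
    refine ⟨lt_of_sq n hL' ?_, lt_of_sq n hL' ?_, lt_of_sq n hL' ?_⟩ <;>
      nlinarith [sq_nonneg y, sq_nonneg z, sq_nonneg x]

end Pool.Agent.TUN
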