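import Pool.Agent.Lib_helper7.TUN.Count

set_option autoImplicit false

/-!
# Sign changes, and the arithmetic of the counts
-/

namespace Pool.Agent.TUN

open Finset

lemma box_even (L : ℕ) (g : ℤ → ℤ) (hg : ∀ y, g (-y) = g y) (h1 : g L = 0) :
    ∑ s ∈ J L, g s = g 0 + 2 * ∑ k ∈ range L, g (k + 1) := by
  rw [sum_box, sum_add_distrib]
  have h2 := sum_range_succ' (fun k : ℕ => g (k : ℤ)) L
  have h3 := sum_range_succ (fun k : ℕ => g (k : ℤ)) L
  simp only [hg]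
  push_cast at h2
  rw [h1] at h3
  linarith

lemma not_sq (n : ℕ) (hsq : ¬ IsSquare n) (y : ℤ) : y ^ 2 ≠ n := by
  intro h
  apply hsq
  refine ⟨y.natAbs, ?_⟩
  have : ((y.natAbs * y.natAbs : ℕ) : ℤ) = n := by
    push_cast
    rw [← h, pow_two, abs_mul_abs_self]
  exact_mod_cast this.symm

lemma not_even (n : ℕ) (hn : n % 8 = 1) (u : ℤ) : 2 * u ≠ n := by
  intro h; omega

/-- representations by a binary form come in fours -/
lemma D_four (c : ℤ) (hc : 0 < c) (hc2 : c % 2 = 0) (n : ℕ) (hn : n % 8 = 1) (hsq : ¬ IsSquare n)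
    (L : ℕ) (hL : 2 * n + 3 ≤ L) (a : ℤ → ℤ) (ha : ∀ s, a (-s) = a s) :
    D c n L a = 4 * ∑ i ∈ range L, ∑ j ∈ range L,
      if ((i : ℤ) + 1) ^ 2 + c * ((j : ℤ) + 1) ^ 2 = n then a (j + 1) else 0 := by
  have hL' : 2 * (n : ℤ) + 3 ≤ L := by exact_mod_cast hL
  have e1 : ∀ y : ℤ, (∑ s ∈ J L, if y ^ 2 + c * s ^ 2 = n then a s else 0)
      = 2 * ∑ j ∈ range L, if y ^ 2 + c * ((j : ℤ) + 1) ^ 2 = n then a (j + 1) else 0 := by
    intro y
    rw [box_even]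
    · rw [if_neg, zero_add]
      intro h
      exact not_sq n hsq y (by rw [← h]; ring)
    · intro s; simp only [neg_sq, ha]
    · rw [if_neg]
      intro h
      have := sq_lt_of L n L hL' (le_abs_self _)
      nlinarith [sq_nonneg y]
  unfold D
  simp only [e1]
  rw [← mul_sum, box_even]
  · have h0 : ∑ j ∈ range L, (if (0 : ℤ) ^ 2 + c * ((j : ℤ) + 1) ^ 2 = n then a (j + 1) else 0) = 0 := by
      apply sum_eq_zero
      intro j _
      rw [if_neg]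
      intro h
      obtain ⟨c', rfl⟩ : ∃ z, c = 2 * z := ⟨c / 2, by omega⟩
      exact not_even n hn (c' * ((j : ℤ) + 1) ^ 2) (by rw [← h]; ring)
    rw [h0]; ring
  · intro y; simp only [neg_sq]
  · apply sum_eq_zero
    intro j _
    rw [if_neg]
    intro h
    have := sq_lt_of L n L hL' (le_abs_self _)
    nlinarith [sq_nonneg ((j : ℤ) + 1)]

/-- representations by a ternary form come in eights, apart from those with a zero coordinate -/
lemma Q_decomp (c d : ℤ) (hc : 0 < c) (hd : 0 < d) (hc2 : c % 2 = 0) (hd2 : d % 2 = 0) (n : ℕ)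
    (hn : n % 8 = 1) (hsq : ¬ IsSquare n)
    (L : ℕ) (hL : 2 * n + 3 ≤ L) (a b : ℤ → ℤ) (ha : ∀ s, a (-s) = a s) (hb : ∀ s, b (-s) = b s)
    (a0 : a 0 = 1) :
    Q c d n L a b = b 0 * D c n L a + D d n L b + 8 * ∑ i ∈ range L, ∑ j ∈ range L, ∑ k ∈ range L,
      if ((i : ℤ) + 1) ^ 2 + c * ((j : ℤ) + 1) ^ 2 + d * ((k : ℤ) + 1) ^ 2 = n
        then a (j + 1) * b (k + 1) else 0 := by
  have hL' : 2 * (n : ℤ) + 3 ≤ L := by exact_mod_cast hL
  have hbig := sq_lt_of L n L hL' (le_abs_self _)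
  -- inner sum over `t`
  have e1 : ∀ y s : ℤ, (∑ t ∈ J L, if y ^ 2 + c * s ^ 2 + d * t ^ 2 = n then a s * b t else 0)
      = b 0 * (if y ^ 2 + c * s ^ 2 = n then a s else 0)
        + 2 * ∑ k ∈ range L, if y ^ 2 + c * s ^ 2 + d * ((k : ℤ) + 1) ^ 2 = n then a s * b (k + 1) else 0 := by
    intro y s
    rw [box_even]
    · congr 1
      simp [mul_comm]
    · intro t; simp only [neg_sq, hb]
    · rw [if_neg]
      intro h
      nlinarith [sq_nonneg y, sq_nonneg s, mul_nonneg hc.le (sq_nonneg s)]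
  -- sum over `s` of the tail
  have e2 : ∀ (y : ℤ) (k : ℕ), (∑ s ∈ J L, if y ^ 2 + c * s ^ 2 + d * ((k : ℤ) + 1) ^ 2 = n then a s * b (k + 1) else 0)
      = (if y ^ 2 + d * ((k : ℤ) + 1) ^ 2 = n then b (k + 1) else 0)
        + 2 * ∑ j ∈ range L, if y ^ 2 + c * ((j : ℤ) + 1) ^ 2 + d * ((k : ℤ) + 1) ^ 2 = n
          then a (j + 1) * b (k + 1) else 0 := by
    intro y k
    rw [box_even]
    · rw [a0]; simp
    · intro t; simp only [neg_sq, ha]
    · rw [if_neg]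
      intro h
      nlinarith [sq_nonneg y, sq_nonneg ((k : ℤ) + 1), mul_nonneg hd.le (sq_nonneg ((k : ℤ) + 1))]
  have e3 : ∀ y : ℤ, (∑ t ∈ J L, if y ^ 2 + d * t ^ 2 = n then b t else 0)
      = 2 * ∑ k ∈ range L, if y ^ 2 + d * ((k : ℤ) + 1) ^ 2 = n then b (k + 1) else 0 := by
    intro y
    rw [box_even]
    · rw [if_neg, zero_add]
      intro h
      exact not_sq n hsq y (by rw [← h]; ring)
    · intro s; simp only [neg_sq, hb]
    · rw [if_neg]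
      intro h
      nlinarith [sq_nonneg y]
  have e4 : ∀ y : ℤ, (∑ s ∈ J L, ∑ t ∈ J L, if y ^ 2 + c * s ^ 2 + d * t ^ 2 = n then a s * b t else 0)
      = b 0 * (∑ s ∈ J L, if y ^ 2 + c * s ^ 2 = n then a s else 0)
        + (∑ t ∈ J L, if y ^ 2 + d * t ^ 2 = n then b t else 0)
        + 4 * ∑ j ∈ range L, ∑ k ∈ range L, if y ^ 2 + c * ((j : ℤ) + 1) ^ 2 + d * ((k : ℤ) + 1) ^ 2 = n
          then a (j + 1) * b (k + 1) else 0 := by
    intro y
    simp only [e1]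
    rw [sum_add_distrib, ← mul_sum, ← mul_sum, sum_comm]
    simp only [e2]
    rw [sum_add_distrib, ← mul_sum, e3 y]
    have : ∑ j ∈ range L, ∑ k ∈ range L, (if y ^ 2 + c * ((j : ℤ) + 1) ^ 2 + d * ((k : ℤ) + 1) ^ 2 = n
          then a (j + 1) * b (k + 1) else 0)
        = ∑ k ∈ range L, ∑ j ∈ range L, (if y ^ 2 + c * ((j : ℤ) + 1) ^ 2 + d * ((k : ℤ) + 1) ^ 2 = n
          then a (j + 1) * b (k + 1) else 0) := sum_comm
    rw [this]
    ring
  unfold Q D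
  simp only [e4]
  rw [sum_add_distrib, sum_add_distrib, ← mul_sum, ← mul_sum]
  congr 1
  rw [box_even]
  · have h0 : ∑ j ∈ range L, ∑ k ∈ range L, (if (0 : ℤ) ^ 2 + c * ((j : ℤ) + 1) ^ 2 + d * ((k : ℤ) + 1) ^ 2 = n
        then a (j + 1) * b (k + 1) else 0) = 0 := by
      apply sum_eq_zero; intro j _
      apply sum_eq_zero; intro k _
      rw [if_neg]
      intro h
      obtain ⟨c', rfl⟩ : ∃ z, c = 2 * z := ⟨c / 2, by omega⟩
      obtain ⟨d', rfl⟩ : ∃ z, d = 2 * z := ⟨d / 2, by omega⟩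
      exact not_even n hn (c' * ((j : ℤ) + 1) ^ 2 + d' * ((k : ℤ) + 1) ^ 2) (by rw [← h]; ring)
    rw [h0]; ring
  · intro y; simp only [neg_sq]
  · apply sum_eq_zero; intro j _
    apply sum_eq_zero; intro k _
    rw [if_neg]
    intro h
    nlinarith [mul_nonneg hc.le (sq_nonneg ((j : ℤ) + 1)), mul_nonneg hd.le (sq_nonneg ((k : ℤ) + 1))]

lemma symm_sum (L : ℕ) (h : ℕ → ℕ → ℤ) (hs : ∀ j k, h j k = h k j) :
    ∃ K : ℤ, ∑ j ∈ range L, ∑ k ∈ range L, h j k = ∑ j ∈ range L, h j j + 2 * K := by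
  induction L with
  | zero => exact ⟨0, by simp⟩
  | succ L ih =>
    obtain ⟨K, hK⟩ := ih
    refine ⟨K + ∑ j ∈ range L, h j L, ?_⟩
    rw [sum_range_succ, sum_range_succ, sum_range_succ]
    simp only [sum_range_succ]
    rw [sum_add_distrib, hK]
    have : ∑ k ∈ range L, h L k = ∑ k ∈ range L, h k L := sum_congr rfl (fun k _ => hs _ _)
    rw [this]; ring

lemma ev_neg (s : ℤ) : ev (-s) = ev s := by
  unfold ev
  have : (-s) % 2 = 0 ↔ s % 2 = 0 := by omega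
  simp only [this]

lemma od_neg (s : ℤ) : od (-s) = od s := by
  unfold od
  have : (-s) % 2 = 0 ↔ s % 2 = 0 := by omega
  simp only [this]

lemma ev_sq (s : ℤ) : ev s * ev s = ev s := by unfold ev; split_ifs <;> norm_num

/-- the symmetric case -/
lemma Y_decomp (n : ℕ) (hn : n % 8 = 1) (hsq : ¬ IsSquare n) (L : ℕ) (hL : 2 * n + 3 ≤ L) :
    ∃ K : ℤ, Q 16 16 n L ev ev = 2 * D 16 n L ev + 2 * D 32 n L ev + 16 * K := by
  rw [Q_decomp 16 16 (by norm_num) (by norm_num) (by norm_num) (by norm_num) n hn hsq L hL ev ev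
    ev_neg ev_neg rfl, show ev 0 = 1 from rfl]
  rw [D_four 32 (by norm_num) (by norm_num) n hn hsq L hL ev ev_neg]
  have hk : ∀ i : ℕ, ∃ K : ℤ, (∑ j ∈ range L, ∑ k ∈ range L,
      if ((i : ℤ) + 1) ^ 2 + 16 * ((j : ℤ) + 1) ^ 2 + 16 * ((k : ℤ) + 1) ^ 2 = n
        then ev (j + 1) * ev (k + 1) else 0)
      = (∑ j ∈ range L, if ((i : ℤ) + 1) ^ 2 + 32 * ((j : ℤ) + 1) ^ 2 = n then ev (j + 1) else 0) + 2 * K := by
    intro i
    obtain ⟨K, hK⟩ := symm_sum L (fun j k : ℕ =>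
      if ((i : ℤ) + 1) ^ 2 + 16 * ((j : ℤ) + 1) ^ 2 + 16 * ((k : ℤ) + 1) ^ 2 = n
        then ev (j + 1) * ev (k + 1) else 0) (by
        intro j k
        have : (((i : ℤ) + 1) ^ 2 + 16 * ((j : ℤ) + 1) ^ 2 + 16 * ((k : ℤ) + 1) ^ 2 = n)
          ↔ (((i : ℤ) + 1) ^ 2 + 16 * ((k : ℤ) + 1) ^ 2 + 16 * ((j : ℤ) + 1) ^ 2 = n) := by
          constructor <;> intro h <;> linarith
        simp only [this]
        rw [mul_comm (ev ((j : ℤ) + 1)) (ev ((k : ℤ) + 1))])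
    refine ⟨K, ?_⟩
    rw [hK]
    congr 1
    apply sum_congr rfl
    intro j _
    have : (((i : ℤ) + 1) ^ 2 + 16 * ((j : ℤ) + 1) ^ 2 + 16 * ((j : ℤ) + 1) ^ 2 = n)
      ↔ (((i : ℤ) + 1) ^ 2 + 32 * ((j : ℤ) + 1) ^ 2 = n) := by
      constructor <;> intro h <;> linarith
    simp only [this, ev_sq]
  choose K hK using hk
  refine ⟨∑ i ∈ range L, K i, ?_⟩
  simp only [hK]
  rw [sum_add_distrib, ← mul_sum]
  ring

/-- the exact identity modulo 8 -/
lemma O_decomp (n : ℕ) (hn : n % 8 = 1) (hsq : ¬ IsSquare n) (L : ℕ) (hL : 2 * n + 3 ≤ L) :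
    ∃ r K : ℤ, D 16 n L od = 4 * r ∧ Q 16 16 n L ev od = 4 * r + 8 * K := by
  have h1 := D_four 16 (by norm_num) (by norm_num) n hn hsq L hL od od_neg
  have h2 := Q_decomp 16 16 (by norm_num) (by norm_num) (by norm_num) (by norm_num) n hn hsq L hL ev od
    ev_neg od_neg rfl
  rw [show od 0 = 0 from rfl, zero_mul, zero_add, h1] at h2
  exact ⟨_, _, h1, h2⟩

/-- all the relations between the counts -/
theorem relations (n : ℕ) (hn : n % 8 = 1) (hsq : ¬ IsSquare n) (L : ℕ) (hL : 2 * n + 3 ≤ L) :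
    ∃ a b f z o d32 d64 d128 K1 K3 : ℤ,
      Q 8 8 n L (fun _ => 1) ev = a ∧ Q 8 8 n L (fun _ => 1) (fun _ => 1) = 2 * b ∧
      Q 8 16 n L (fun _ => 1) (fun _ => 1) = f ∧ Q 8 16 n L ev ev = z ∧ Q 16 16 n L ev od = o ∧
      D 8 n L ev = 4 * d32 ∧ D 16 n L ev = 4 * d64 ∧ D 32 n L ev = 4 * d128 ∧
      2 * a - 2 * b = b - 4 * o ∧
      2 * sig n * f = 8 * sig n * z - 4 * (8 * d64 + 8 * d128 + 16 * K3) + 4 * o ∧
      z = 4 * d32 + 4 * d64 + 8 * K1 := by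
  have hn' : (n : ℤ) % 8 = 1 := by omega
  have hL' : 2 * (n : ℤ) + 3 ≤ L := by exact_mod_cast hL
  -- names
  have f1 := F1 n hn hsq L hL
  rw [Q_left 8 8 n L 1 (-1) ev od sg sg sg_ev_od, Q_right 8 8 n L 1 (-1) ev od sg ev sg_ev_od,
    Q_right 8 8 n L 1 (-1) ev od sg od sg_ev_od] at f1
  have sx : Q 8 8 n L od ev = Q 8 8 n L ev od := Q_swap _ _ _ _ _ _
  have sy : Q 16 16 n L od ev = Q 16 16 n L ev od := Q_swap _ _ _ _ _ _
  have xee := X_ee n L hL'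
  have xoo := X_oo n L hL'
  rw [sy] at xoo
  have z1 := Z_left n hn' L hL' ev
  rw [Q_left 8 16 n L 1 (-1) ev od sg ev sg_ev_od, Q_left 16 16 n L 1 (-1) ev od sg ev sg_ev_od, sy] at z1
  have z2 := Z_right n hn' L hL' ev
  rw [Q_left 8 8 n L 1 0 ev ev (fun s => ev s * sg s) sg (by
      intro s; unfold ev sg; split_ifs <;> norm_num),
    Q_right 8 8 n L 1 (-1) ev od sg ev sg_ev_od, Q_right 8 16 n L 1 (-1) ev od sg ev sg_ev_od] at z2
  have z3 := Z_right n hn' L hL' od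
  rw [Q_left 8 8 n L (-1) 0 od ev (fun s => od s * sg s) sg (by
      intro s; unfold od sg; split_ifs <;> norm_num),
    Q_right 8 8 n L 1 (-1) ev od sg od sg_ev_od, Q_right 8 16 n L 1 (-1) ev od sg od sg_ev_od, sx] at z3
  rw [sx] at f1
  have fA : Q 8 8 n L (fun _ => 1) ev = 1 * Q 8 8 n L ev ev + 1 * Q 8 8 n L od ev :=
    Q_left 8 8 n L 1 1 ev od _ ev one_ev_od
  have fB : Q 8 8 n L (fun _ => 1) (fun _ => 1)
      = 1 * (1 * Q 8 8 n L ev ev + 1 * Q 8 8 n L ev od) + 1 * (1 * Q 8 8 n L od ev + 1 * Q 8 8 n L od od) := by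
    rw [Q_left 8 8 n L 1 1 ev od _ _ one_ev_od, Q_right 8 8 n L 1 1 ev od (fun _ => 1) ev one_ev_od,
      Q_right 8 8 n L 1 1 ev od (fun _ => 1) od one_ev_od]
  have fF : Q 8 16 n L (fun _ => 1) (fun _ => 1)
      = 1 * (1 * Q 8 16 n L ev ev + 1 * Q 8 16 n L ev od) + 1 * (1 * Q 8 16 n L od ev + 1 * Q 8 16 n L od od) := by
    rw [Q_left 8 16 n L 1 1 ev od _ _ one_ev_od, Q_right 8 16 n L 1 1 ev od (fun _ => 1) ev one_ev_od,
      Q_right 8 16 n L 1 1 ev od (fun _ => 1) od one_ev_od]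
  rw [sx] at fA fB
  have hZ := Q_decomp 8 16 (by norm_num) (by norm_num) (by norm_num) (by norm_num) n hn hsq L hL ev ev
    ev_neg ev_neg rfl
  rw [show ev 0 = 1 from rfl, one_mul] at hZ
  generalize (∑ i ∈ range L, ∑ j ∈ range L, ∑ k ∈ range L,
      if ((i : ℤ) + 1) ^ 2 + 8 * ((j : ℤ) + 1) ^ 2 + 16 * ((k : ℤ) + 1) ^ 2 = n
        then ev (j + 1) * ev (k + 1) else 0) = K1 at hZ
  obtain ⟨K3, hY⟩ := Y_decomp n hn hsq L hL
  have d1 := D_four 8 (by norm_num) (by norm_num) n hn hsq L hL ev ev_neg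
  have d2 := D_four 16 (by norm_num) (by norm_num) n hn hsq L hL ev ev_neg
  have d3 := D_four 32 (by norm_num) (by norm_num) n hn hsq L hL ev ev_neg
  have hs := sig_sq n
  refine ⟨_, Q 8 8 n L ev ev + Q 8 8 n L od od, _, _, _, _, _, _, K1, K3, rfl, ?_, rfl, rfl, rfl, d1, d2, d3,
    ?_, ?_, ?_⟩
  · rw [fB]; linarith
  · rw [fA]; linarith
  · rw [fF]
    rw [d2, d3] at hY
    generalize (sig (n : ℤ)) = σ at *
    generalize Q 8 8 n L ev ev = x0 at *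
    generalize Q 8 8 n L ev od = x1 at *
    generalize Q 8 8 n L od od = x2 at *
    generalize Q 16 16 n L ev ev = y0 at *
    generalize Q 16 16 n L ev od = y1 at *
    generalize Q 16 16 n L od od = y2 at *
    generalize Q 8 16 n L ev ev = w0 at *
    generalize Q 8 16 n L ev od = w1 at *
    generalize Q 8 16 n L od ev = w2 at *
    generalize Q 8 16 n L od od = w3 at *
    linear_combination (-2 * σ) * z2 + (-4 * σ) * z1 + (-2 * σ) * z3 - 2 * σ ^ 2 * f1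
      - 4 * (y0 - y1) * hs - 4 * hY
  · rw [hZ, d1, d2]

end Pool.Agent.TUN
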