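import Pool.Agent.Lib_helper7.TUN.Conv

set_option autoImplicit false

/-!
# Assembly: Tunnell's number `c n = 2|A_n| - |B_n|`, `n ≡ 1 mod 8` not a square
-/

namespace Pool.Agent.TUN

open Finset

/-- `c(n) = 2|A_n| - |B_n|`, Tunnell's number -/
noncomputable def cT (n : ℕ) : ℤ := 2 * ((N9003ba20.A n).ncard : ℤ) - ((N9003ba20.B n).ncard : ℤ)

/-- `#{(x,y,z) ∈ ℤ³ : n = x² + y² + 2z²}` -/
noncomputable def Ec (n : ℕ) : ℤ :=
  (({v : ℤ × ℤ × ℤ | (n : ℤ) = v.1 ^ 2 + v.2.1 ^ 2 + 2 * v.2.2 ^ 2}).ncard : ℤ)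

/-- `#{(x,y) ∈ ℤ² : n = x² + k y²}` -/
noncomputable def Dc (k n : ℕ) : ℤ := (({v : ℤ × ℤ | (n : ℤ) = v.1 ^ 2 + k * v.2 ^ 2}).ncard : ℤ)

/-- `#{(x,y,z) ∈ ℤ³ : n = x² + 16y² + 64z², y odd}` -/
noncomputable def Oc (n : ℕ) : ℤ :=
  (({v : ℤ × ℤ × ℤ | (n : ℤ) = v.1 ^ 2 + 16 * v.2.1 ^ 2 + 64 * v.2.2 ^ 2 ∧ v.2.1 % 2 = 1}).ncard : ℤ)

/-- `#{(x,y) ∈ ℤ² : n = x² + 16y², y odd}` -/
noncomputable def Rc (n : ℕ) : ℤ :=
  (({v : ℤ × ℤ | (n : ℤ) = v.1 ^ 2 + 16 * v.2 ^ 2 ∧ v.2 % 2 = 1}).ncard : ℤ)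

/-- the exact identity -/
theorem exact (n : ℕ) (hn : n % 8 = 1) (hsq : ¬ IsSquare n) :
    2 * cT n = ((N9003ba20.B n).ncard : ℤ) - 8 * Oc n := by
  obtain ⟨a, b, f, z, o, d32, d64, d128, K1, K3, h1, h2, h3, h4, h5, h6, h7, h8, r1, r2, r3⟩ :=
    relations n hn hsq (2 * n + 3) le_rfl
  unfold cT Oc
  rw [countA n hn _ le_rfl, countB n hn _ le_rfl, countO n _ le_rfl, h1, h2, h5]
  linarith

/-- the congruence modulo 32 -/
theorem mod32 (n : ℕ) (hn : n % 8 = 1) (hsq : ¬ IsSquare n) :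
    cT n ≡ ((N9003ba20.B n).ncard : ℤ) / 2 + 4 * Rc n [ZMOD 32] := by
  have h1 := exact n hn hsq
  obtain ⟨r, K, h2, h3⟩ := O_decomp n hn hsq (2 * n + 3) le_rfl
  have hO : Oc n = 4 * r + 8 * K := by
    unfold Oc
    rw [countO n _ le_rfl, h3]
  have hR : Rc n = 4 * r := by
    unfold Rc
    rw [countR n _ le_rfl, h2]
  rw [hO] at h1
  have hB : ((N9003ba20.B n).ncard : ℤ) = 2 * (cT n + 16 * r + 32 * K) := by linarith
  rw [hB, hR, Int.mul_ediv_cancel_left _ (by norm_num)]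
  rw [Int.modEq_iff_dvd]
  exact ⟨r + K, by ring⟩

/-- the congruence modulo 64 -/
theorem mod64 (n : ℕ) (hn : n % 8 = 1) (hsq : ¬ IsSquare n) :
    (2 : ℤ) ∣ ((N9003ba20.B n).ncard : ℤ) ∧
    cT n ≡ ((N9003ba20.B n).ncard : ℤ) / 2 - (-1) ^ ((n - 1) / 8) * Ec n + 8 * (Dc 32 n + Dc 128 n) [ZMOD 64] := by
  obtain ⟨a, b, f, z, o, d32, d64, d128, K1, K3, h1, h2, h3, h4, h5, h6, h7, h8, r1, r2, r3⟩ :=
    relations n hn hsq (2 * n + 3) le_rfl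
  have hD32 : Dc 32 n = 4 * d32 := by
    have := countD 8 (by norm_num) n (2 * n + 3) le_rfl
    rw [h6] at this
    rw [← this]
    unfold Dc
    norm_num
  have hD128 : Dc 128 n = 4 * d128 := by
    have := countD 32 (by norm_num) n (2 * n + 3) le_rfl
    rw [h8] at this
    rw [← this]
    unfold Dc
    norm_num
  have hE : Ec n = 2 * f := by
    unfold Ec
    rw [countE n hn _ le_rfl, h3]
  have hsig : (-1 : ℤ) ^ ((n - 1) / 8) = sig n := by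
    unfold sig
    rcases Nat.even_or_odd ((n - 1) / 8) with h | h
    · rw [h.neg_one_pow, if_pos]
      obtain ⟨m, hm⟩ := h; omega
    · rw [h.neg_one_pow, if_neg]
      obtain ⟨m, hm⟩ := h; omega
  unfold cT
  rw [countA n hn _ le_rfl, countB n hn _ le_rfl, h1, h2, hD32, hD128, hE, hsig]
  refine ⟨⟨b, rfl⟩, ?_⟩
  rw [Int.mul_ediv_cancel_left _ (by norm_num)]
  have hs : sig (n : ℤ) = 1 ∨ sig (n : ℤ) = -1 := by unfold sig; split_ifs <;> simp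
  rw [r3] at r2
  apply Int.ModEq.symm
  rw [Int.modEq_iff_dvd]
  rcases hs with hs | hs <;> rw [hs] at r2 ⊢
  · refine ⟨K1 - K3 - d128, ?_⟩
    linarith
  · refine ⟨-(d32 + d64 + K1 + K3 + d128), ?_⟩
    linarith

end Pool.Agent.TUN
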