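import Mathlib

set_option autoImplicit false

/-!
# Jacobi's triple product in a ring with a nilpotent element `q`

All identities between theta series are proved in a commutative ring with `q ^ (M + 1) = 0`, where all
series and products are finite.
-/

namespace Pool.Agent.TUN

open Finset

variable {S : Type*} [CommRing S]

/-- triangular numbers -/
def T (k : ℕ) : ℕ := k * (k + 1) / 2

lemma T_zero : T 0 = 0 := rfl

lemma two_T (k : ℕ) : 2 * T k = k * (k + 1) := by
  unfold T
  exact Nat.mul_div_cancel' (Nat.even_mul_succ_self k).two_dvd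

lemma T_succ (k : ℕ) : T (k + 1) = T k + (k + 1) := by
  have h1 := two_T k
  have h2 := two_T (k + 1)
  nlinarith

lemma le_T (k : ℕ) : k ≤ T k := by
  have h := two_T k
  nlinarith

/-- `∏_{i ≤ j} (1 - q^i)` -/
def p (q : S) (j : ℕ) : S := ∏ i ∈ range j, (1 - q ^ (i + 1))

lemma p_zero (q : S) : p q 0 = 1 := by simp [p]

lemma p_succ (q : S) (j : ℕ) : p q (j + 1) = p q j * (1 - q ^ (j + 1)) := by
  simp [p, prod_range_succ]

/-- the coefficients of `∏ (1 - w q^i) (1 - w⁻¹ q^i)` after multiplication with `1 - w`;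
`al = q w⁻¹`, `be = q w`. -/
def U (q al be : S) : ℕ → ℕ → S
  | 0, k => if k = 0 then 1 else 0
  | N + 1, 0 => (1 + q ^ (2 * N + 2)) * U q al be N 0 + q ^ (N + 1) * U q al be N 0
      - q ^ N * be * U q al be N 1
  | N + 1, k + 1 => (1 + q ^ (2 * N + 2)) * U q al be N (k + 1) - q ^ N * al * U q al be N k
      - q ^ N * be * U q al be N (k + 2)

lemma U_zero_of_lt (q al be : S) (N : ℕ) : ∀ k, N < k → U q al be N k = 0 := by
  induction N with
  | zero => intro k hk; simp [U, Nat.pos_iff_ne_zero.mp hk]
  | succ N ih =>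
    intro k hk
    obtain ⟨k, rfl⟩ : ∃ j, k = j + 1 := ⟨k - 1, by omega⟩
    simp only [U]
    rw [ih (k + 1) (by omega), ih k (by omega), ih (k + 2) (by omega)]
    ring

/-- the exponent of the leading power -/
def e (k : ℕ) : ℕ := T k - k

lemma e_zero : e 0 = 0 := rfl

lemma e_succ (k : ℕ) : e (k + 1) = T k := by
  unfold e; rw [T_succ]; omega

lemma key (q al be : S) (h : al * be = q ^ 2) (N : ℕ) : ∀ k j, k + j = N →
    U q al be N k * (p q j * p q (2 * k + j + 1))
      = (-1) ^ k * al ^ k * q ^ (e k) * p q (2 * N + 1) := by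
  induction N with
  | zero =>
    intro k j hkj
    obtain ⟨rfl, rfl⟩ : k = 0 ∧ j = 0 := by omega
    simp [U, e_zero, p_zero]
  | succ N ih =>
    intro k j hkj
    have hp3 : p q (2 * (N + 1) + 1) = p q (2 * N + 1) * ((1 - q ^ (2 * N + 2)) * (1 - q ^ (2 * N + 3))) := by
      rw [show 2 * (N + 1) + 1 = (2 * N + 1 + 1) + 1 by ring, p_succ, p_succ]; ring
    rcases k with _ | k
    · obtain rfl : j = N + 1 := by omega
      have t1 : U q al be N 0 * (p q (N + 1) * p q (N + 2))
          = p q (2 * N + 1) * ((1 - q ^ (N + 1)) * (1 - q ^ (N + 2))) := by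
        have h0 := ih 0 N (by omega)
        simp only [e_zero, pow_zero, one_mul, mul_zero, zero_add] at h0
        rw [p_succ q (N + 1)]
        nth_rw 1 [p_succ q N]
        linear_combination ((1 - q ^ (N + 1)) * (1 - q ^ (N + 2))) * h0
      have t3 : U q al be N 1 * (p q (N + 1) * p q (N + 2))
          = - (al * p q (2 * N + 1) * ((1 - q ^ N) * (1 - q ^ (N + 1)))) := by
        rcases N with _ | N'
        · rw [U_zero_of_lt _ _ _ _ _ (by norm_num : 0 < 1)]; simp
        · have h1 := ih 1 N' (by omega)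
          rw [show 2 * 1 + N' + 1 = N' + 1 + 2 by ring, show e 1 = 0 from rfl] at h1
          rw [p_succ q (N' + 1), p_succ q N']
          linear_combination (1 - q ^ (N' + 1)) * (1 - q ^ (N' + 1 + 1)) * h1
      rw [hp3, show 2 * 0 + (N + 1) + 1 = N + 2 by ring]
      simp only [U, e_zero, pow_zero, one_mul]
      linear_combination (1 + q ^ (2 * N + 2) + q ^ (N + 1)) * t1 - q ^ N * be * t3
        + (1 - q ^ N) * (1 - q ^ (N + 1)) * q ^ N * p q (2 * N + 1) * h
    · have hkj' : k + j = N := by omega
      have t2 : U q al be N k * (p q j * p q (2 * k + j + 3))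
          = (-1) ^ k * al ^ k * q ^ (e k) * p q (2 * N + 1)
            * ((1 - q ^ (2 * k + j + 2)) * (1 - q ^ (2 * k + j + 3))) := by
        have h0 := ih k j hkj'
        rw [show 2 * k + j + 3 = (2 * k + j + 1 + 1) + 1 by ring, p_succ, p_succ]
        linear_combination ((1 - q ^ (2 * k + j + 1 + 1)) * (1 - q ^ (2 * k + j + 1 + 1 + 1))) * h0
      have t1 : U q al be N (k + 1) * (p q j * p q (2 * k + j + 3))
          = (-1) ^ (k + 1) * al ^ (k + 1) * q ^ (T k) * p q (2 * N + 1)
            * ((1 - q ^ j) * (1 - q ^ (2 * k + j + 3))) := by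
        rcases j with _ | j
        · rw [U_zero_of_lt _ _ _ _ _ (by omega : N < k + 1)]; simp
        · have h0 := ih (k + 1) j (by omega)
          rw [e_succ, show 2 * (k + 1) + j + 1 = 2 * k + (j + 1) + 2 by ring] at h0
          rw [show 2 * k + (j + 1) + 3 = (2 * k + (j + 1) + 2) + 1 by ring, p_succ q j, p_succ q (2 * k + (j + 1) + 2)]
          linear_combination ((1 - q ^ (j + 1)) * (1 - q ^ (2 * k + (j + 1) + 2 + 1))) * h0
      have t3 : U q al be N (k + 2) * (p q j * p q (2 * k + j + 3))
          = (-1) ^ k * al ^ (k + 2) * q ^ (T k + k) * p q (2 * N + 1)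
            * ((q - q ^ j) * (1 - q ^ j)) := by
        rcases j with _ | _ | j
        · rw [U_zero_of_lt _ _ _ _ _ (by omega : N < k + 2)]; simp
        · rw [U_zero_of_lt _ _ _ _ _ (by omega : N < k + 2)]; simp
        · have h0 := ih (k + 2) j (by omega)
          rw [show e (k + 2) = T k + k + 1 from by rw [e_succ, T_succ]; ring,
            show 2 * (k + 2) + j + 1 = 2 * k + (j + 1 + 1) + 3 by ring] at h0
          rw [p_succ q (j + 1), p_succ q j]
          linear_combination ((1 - q ^ (j + 1)) * (1 - q ^ (j + 1 + 1))) * h0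
      have hT : T k = e k + k := by unfold e; have := le_T k; omega
      rw [hp3, e_succ, show 2 * (k + 1) + j + 1 = 2 * k + j + 3 by ring]
      simp only [U]
      rw [hT] at t1 t3 ⊢
      subst hkj'
      linear_combination (1 + q ^ (2 * (k + j) + 2)) * t1 - q ^ (k + j) * al * t2 - q ^ (k + j) * be * t3
        - (-1) ^ k * al ^ (k + 1) * q ^ (e k + k + k) * p q (2 * (k + j) + 1)
            * ((q - q ^ j) * (1 - q ^ j)) * q ^ (k + j) * h

end Pool.Agent.TUN
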