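import Pool.Agent.Lib_helper7.TUN.Ring

set_option autoImplicit false

/-!
# The two identities between theta series

`Psi q * Phi q ^ 2 = G q` and `Psi q * Phi q = Psi (-q) * Phi (q ^ 2)`, where
`Psi q = ∑ q^(T k)`, `Phi q = ∑ (-1)^s q^(s^2)` (over all integers `s`),
`G q = ∑ (-1)^k (2k+1) q^(T k)`; in a ring with `q ^ (M + 1) = 0`.
-/

namespace Pool.Agent.TUN

open Finset

variable {S : Type*} [CommRing S]

/-- weighted sum of the coefficients -/
def V (q al be : S) (c : ℕ → S) (N : ℕ) : S := ∑ k ∈ range (N + 1), c k * U q al be N k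

lemma V_succ (q al be lam : S) (c : ℕ → S) (h0 : al * c 1 - q * c 0 = lam * c 0)
    (h1 : ∀ k, al * c (k + 2) + be * c k = lam * c (k + 1)) (N : ℕ) :
    V q al be c (N + 1) = (1 + q ^ (2 * N + 2) - q ^ N * lam) * V q al be c N := by
  have hz1 : U q al be N (N + 1) = 0 := U_zero_of_lt _ _ _ _ _ (by omega)
  have hz2 : U q al be N (N + 2) = 0 := U_zero_of_lt _ _ _ _ _ (by omega)
  -- the four sums
  have s1 : ∑ k ∈ range (N + 1), c (k + 1) * U q al be N (k + 1) + c 0 * U q al be N 0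
      = V q al be c N := by
    unfold V
    rw [← sum_range_succ' (fun k => c k * U q al be N k), sum_range_succ, hz1]; ring
  have s1' : ∑ k ∈ range N, c (k + 1) * U q al be N (k + 1) + c 0 * U q al be N 0
      = V q al be c N := by
    unfold V
    rw [← sum_range_succ' (fun k => c k * U q al be N k)]
  have s2 : ∑ k ∈ range (N + 1), c (k + 1) * U q al be N k
      = ∑ k ∈ range N, c (k + 2) * U q al be N (k + 1) + c 1 * U q al be N 0 := by
    rw [sum_range_succ' (fun k => c (k + 1) * U q al be N k)]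
  have s3 : ∑ k ∈ range (N + 1), c (k + 1) * U q al be N (k + 2) + c 0 * U q al be N 1
      = ∑ k ∈ range N, c k * U q al be N (k + 1) := by
    rw [← sum_range_succ' (fun k => c k * U q al be N (k + 1)), sum_range_succ, sum_range_succ, hz1, hz2]
    ring
  have s4 : al * ∑ k ∈ range N, c (k + 2) * U q al be N (k + 1)
      + be * ∑ k ∈ range N, c k * U q al be N (k + 1)
      = lam * ∑ k ∈ range N, c (k + 1) * U q al be N (k + 1) := by
    rw [mul_sum, mul_sum, mul_sum, ← sum_add_distrib]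
    apply sum_congr rfl
    intro k _
    linear_combination (U q al be N (k + 1)) * h1 k
  have s5 : V q al be c (N + 1)
      = (1 + q ^ (2 * N + 2)) * ∑ k ∈ range (N + 1), c (k + 1) * U q al be N (k + 1)
        - q ^ N * al * ∑ k ∈ range (N + 1), c (k + 1) * U q al be N k
        - q ^ N * be * ∑ k ∈ range (N + 1), c (k + 1) * U q al be N (k + 2)
        + c 0 * ((1 + q ^ (2 * N + 2)) * U q al be N 0 + q ^ (N + 1) * U q al be N 0
            - q ^ N * be * U q al be N 1) := by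
    unfold V
    rw [sum_range_succ' (fun k => c k * U q al be (N + 1) k)]
    simp only [U]
    rw [mul_sum, mul_sum, mul_sum, ← sum_sub_distrib, ← sum_sub_distrib]
    congr 1
    apply sum_congr rfl
    intro k _
    ring
  rw [s5]
  linear_combination (1 + q ^ (2 * N + 2)) * s1 - q ^ N * lam * s1' - q ^ N * al * s2
    - q ^ N * be * s3 - q ^ N * s4 - q ^ N * (U q al be N 0) * h0

lemma V_prod (q al be lam : S) (c : ℕ → S) (h0 : al * c 1 - q * c 0 = lam * c 0)
    (h1 : ∀ k, al * c (k + 2) + be * c k = lam * c (k + 1)) (N : ℕ) :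
    V q al be c N = c 0 * ∏ i ∈ range N, (1 + q ^ (2 * i + 2) - q ^ i * lam) := by
  induction N with
  | zero => simp [V, U]
  | succ N ih => rw [V_succ q al be lam c h0 h1, ih, prod_range_succ]; ring

/-! ### nilpotent `q` -/

variable {q : S} {M : ℕ}

lemma pow_zero_of_le (hq : q ^ (M + 1) = 0) {i : ℕ} (hi : M < i) : q ^ i = 0 := by
  obtain ⟨j, rfl⟩ := Nat.exists_eq_add_of_le hi
  rw [show M.succ + j = M + 1 + j from rfl, pow_add, hq, zero_mul]

lemma unit_one_sub (hq : q ^ (M + 1) = 0) (i : ℕ) : IsUnit (1 - q ^ (i + 1)) := by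
  apply IsNilpotent.isUnit_one_sub
  refine ⟨M + 1, ?_⟩
  rw [← pow_mul, mul_comm, pow_mul, hq, zero_pow (by omega)]

lemma unit_p (hq : q ^ (M + 1) = 0) (j : ℕ) : IsUnit (p q j) := by
  induction j with
  | zero => rw [p_zero]; exact isUnit_one
  | succ j ih => rw [p_succ]; exact ih.mul (unit_one_sub hq j)

lemma prod_stab (f : ℕ → S) (hf : ∀ i, M ≤ i → f i = 1) {N : ℕ} (hN : M ≤ N) :
    ∏ i ∈ range N, f i = ∏ i ∈ range M, f i := by
  obtain ⟨j, rfl⟩ := Nat.exists_eq_add_of_le hN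
  induction j with
  | zero => rfl
  | succ j ih =>
    rw [← add_assoc, prod_range_succ, ih (by omega), hf _ (by omega), mul_one]

lemma p_stab (hq : q ^ (M + 1) = 0) {N : ℕ} (hN : M ≤ N) : p q N = p q M := by
  unfold p
  apply prod_stab _ _ hN
  intro i hi
  rw [pow_zero_of_le hq (by omega)]; ring

/-- the coefficients for large `N` -/
lemma UP (hq : q ^ (M + 1) = 0) (al be : S) (h : al * be = q ^ 2) {N : ℕ} (hN : 2 * M + 2 ≤ N)
    {k : ℕ} (hk : k ≤ N) :
    U q al be N k * p q M = (-1) ^ k * al ^ k * q ^ (e k) := by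
  obtain ⟨j, rfl⟩ := Nat.exists_eq_add_of_le hk
  have hkey := key q al be h (k + j) k j rfl
  have hs1 : p q (2 * k + j + 1) = p q M := p_stab hq (by omega)
  have hs2 : p q (2 * (k + j) + 1) = p q M := p_stab hq (by omega)
  by_cases hj : M ≤ j
  · rw [p_stab hq hj, hs1, hs2] at hkey
    have hu := unit_p hq M
    have : (U q al be (k + j) k * p q M) * p q M = ((-1) ^ k * al ^ k * q ^ (e k)) * p q M := by
      linear_combination hkey
    exact hu.mul_right_cancel this
  · have hk' : M < e k := by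
      obtain ⟨k, rfl⟩ : ∃ l, k = l + 1 := ⟨k - 1, by omega⟩
      rw [e_succ]
      have := le_T k
      omega
    rw [pow_zero_of_le hq hk', mul_zero, zero_mul] at hkey
    rw [pow_zero_of_le hq hk', mul_zero]
    have hu := (unit_p hq j).mul (unit_p hq (2 * k + j + 1))
    have : U q al be (k + j) k = 0 := by
      have h0 : U q al be (k + j) k * (p q j * p q (2 * k + j + 1)) = 0 * (p q j * p q (2 * k + j + 1)) := by
        rw [hkey, zero_mul]
      exact hu.mul_right_cancel h0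
    rw [this, zero_mul]

lemma VP (hq : q ^ (M + 1) = 0) (al be lam : S) (h : al * be = q ^ 2) (c : ℕ → S)
    (h0 : al * c 1 - q * c 0 = lam * c 0)
    (h1 : ∀ k, al * c (k + 2) + be * c k = lam * c (k + 1)) {N : ℕ} (hN : 2 * M + 2 ≤ N) :
    (c 0 * ∏ i ∈ range N, (1 + q ^ (2 * i + 2) - q ^ i * lam)) * p q M
      = ∑ k ∈ range (N + 1), c k * ((-1) ^ k * al ^ k * q ^ (e k)) := by
  rw [← V_prod q al be lam c h0 h1]
  unfold V
  rw [sum_mul]
  apply sum_congr rfl
  intro k hk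
  rw [mul_assoc, UP hq al be h hN (by simpa [Nat.lt_succ_iff] using hk)]

/-- `∑ q^(T k)` -/
def Psi (q : S) (N : ℕ) : S := ∑ k ∈ range (N + 1), q ^ (T k)

/-- `∑_{s ∈ ℤ} (-1)^s q^(s^2)` -/
def Phi (q : S) (N : ℕ) : S := ∑ k ∈ range (N + 1), (-1) ^ k * q ^ (k ^ 2) * (1 - q ^ (2 * k + 1))

/-- `∑ (-1)^k (2k+1) q^(T k)` -/
def G (q : S) (N : ℕ) : S := ∑ k ∈ range (N + 1), (-1) ^ k * (2 * k + 1) * q ^ (T k)

/-- `∏ (1 + q^i)` -/
def C (q : S) (j : ℕ) : S := ∏ i ∈ range j, (1 + q ^ (i + 1))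

/-- `∏ (1 - q^(2i-1))` -/
def O (q : S) (j : ℕ) : S := ∏ i ∈ range j, (1 - q ^ (2 * i + 1))

lemma C_stab (hq : q ^ (M + 1) = 0) {N : ℕ} (hN : M ≤ N) : C q N = C q M := by
  unfold C
  apply prod_stab _ _ hN
  intro i hi
  rw [pow_zero_of_le hq (by omega)]; ring

lemma O_stab (hq : q ^ (M + 1) = 0) {N : ℕ} (hN : M ≤ N) : O q N = O q M := by
  unfold O
  apply prod_stab _ _ hN
  intro i hi
  rw [pow_zero_of_le hq (by omega)]; ring

lemma C_mul_p (q : S) (j : ℕ) : C q j * p q j = p (q ^ 2) j := by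
  unfold C p
  rw [← prod_mul_distrib]
  apply prod_congr rfl
  intro i _
  ring

lemma p_two_mul (q : S) (j : ℕ) : p q (2 * j) = O q j * p (q ^ 2) j := by
  induction j with
  | zero => simp [p, O]
  | succ j ih =>
    rw [show 2 * (j + 1) = 2 * j + 1 + 1 by ring, p_succ, p_succ, ih, p_succ]
    unfold O
    rw [prod_range_succ]
    ring

lemma C_neg_two_mul (q : S) (j : ℕ) : C (-q) (2 * j) = O q j * C (q ^ 2) j := by
  induction j with
  | zero => simp [C, O]
  | succ j ih =>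
    have h1 : C (-q) (2 * (j + 1)) = C (-q) (2 * j) * ((1 - q ^ (2 * j + 1)) * (1 + q ^ (2 * j + 2))) := by
      unfold C
      rw [show 2 * (j + 1) = 2 * j + 1 + 1 by ring, prod_range_succ, prod_range_succ]
      rw [Odd.neg_pow ⟨j, rfl⟩, show 2 * j + 1 + 1 = 2 * j + 2 from rfl, Even.neg_pow ⟨j + 1, by ring⟩]
      ring
    rw [h1, ih]
    unfold O C
    rw [prod_range_succ, prod_range_succ]
    ring

lemma sq_nil (hq : q ^ (M + 1) = 0) : (q ^ 2) ^ (M + 1) = 0 := by
  rw [← pow_mul, mul_comm, pow_mul, hq]; ring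

lemma neg_nil (hq : q ^ (M + 1) = 0) : (-q) ^ (M + 1) = 0 := by
  rw [neg_pow, hq, mul_zero]

/-- case A -/
lemma G_eq (hq : q ^ (M + 1) = 0) {N : ℕ} (hN : 2 * M + 2 ≤ N) : G q N = p q M ^ 3 := by
  have h := VP hq q q (2 * q) (by ring) (fun k => 2 * k + 1) (by push_cast; ring)
    (fun k => by push_cast; ring) hN
  have h2 : ∏ i ∈ range N, (1 + q ^ (2 * i + 2) - q ^ i * (2 * q)) = p q M ^ 2 := by
    rw [← p_stab hq (show M ≤ N by omega)]
    unfold p
    rw [← prod_pow]
    apply prod_congr rfl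
    intro i _
    ring
  rw [h2] at h
  have h3 : G q N = ∑ k ∈ range (N + 1), (2 * (k : S) + 1) * ((-1) ^ k * q ^ k * q ^ (e k)) := by
    unfold G
    apply sum_congr rfl
    intro k _
    have hT : T k = k + e k := by unfold e; have := le_T k; omega
    rw [hT, pow_add]; ring
  rw [h3, ← h]
  push_cast
  ring

/-- case B -/
lemma Psi_eq (hq : q ^ (M + 1) = 0) {N : ℕ} (hN : 2 * M + 2 ≤ N) :
    Psi q N = C q M ^ 2 * p q M := by
  have h := VP hq q q (-(2 * q)) (by ring) (fun k => (-1) ^ k) (by ring)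
    (fun k => by ring) hN
  have h2 : ∏ i ∈ range N, (1 + q ^ (2 * i + 2) - q ^ i * (-(2 * q))) = C q M ^ 2 := by
    rw [← C_stab hq (show M ≤ N by omega)]
    unfold C
    rw [← prod_pow]
    apply prod_congr rfl
    intro i _
    ring
  rw [h2] at h
  have h3 : Psi q N = ∑ k ∈ range (N + 1), (-1 : S) ^ k * ((-1) ^ k * q ^ k * q ^ (e k)) := by
    unfold Psi
    apply sum_congr rfl
    intro k _
    have hT : T k = k + e k := by unfold e; have := le_T k; omega
    have h1 : (-1 : S) ^ k * (-1) ^ k = 1 := by rw [← mul_pow]; simp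
    rw [hT, pow_add]
    linear_combination (- (q ^ k * q ^ e k)) * h1
  rw [h3, ← h]
  ring

/-- case C -/
lemma Phi_eq (hq : q ^ (M + 1) = 0) {N : ℕ} (hN : 2 * M + 2 ≤ N) :
    Phi q N = O q M ^ 2 * p (q ^ 2) M := by
  have h := VP (sq_nil hq) q (q ^ 3) (q + q ^ 3) (by ring) (fun k => 1 - q ^ (2 * k + 1)) (by ring)
    (fun k => by ring) hN
  have h2 : (1 - q ^ (2 * 0 + 1)) * ∏ i ∈ range N, (1 + (q ^ 2) ^ (2 * i + 2) - (q ^ 2) ^ i * (q + q ^ 3))
      = O q M ^ 2 := by
    have h4 : ∏ i ∈ range N, (1 + (q ^ 2) ^ (2 * i + 2) - (q ^ 2) ^ i * (q + q ^ 3))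
        = O q N * ∏ i ∈ range N, (1 - q ^ (2 * (i + 1) + 1)) := by
      unfold O
      rw [← prod_mul_distrib]
      apply prod_congr rfl
      intro i _
      ring
    rw [h4]
    have h5 : (1 - q ^ (2 * 0 + 1)) * ∏ i ∈ range N, (1 - q ^ (2 * (i + 1) + 1)) = O q (N + 1) := by
      unfold O
      rw [prod_range_succ' (fun i => 1 - q ^ (2 * i + 1))]
      ring
    have h6 := O_stab hq (show M ≤ N by omega)
    have h7 := O_stab hq (show M ≤ N + 1 by omega)
    rw [h7] at h5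
    rw [h6]
    linear_combination O q M * h5
  rw [h2] at h
  have h3 : Phi q N = ∑ k ∈ range (N + 1), (1 - q ^ (2 * k + 1)) * ((-1) ^ k * q ^ k * (q ^ 2) ^ (e k)) := by
    unfold Phi
    apply sum_congr rfl
    intro k _
    have hT : k ^ 2 = k + 2 * e k := by
      have := two_T k
      have h1 : T k = e k + k := by unfold e; have := le_T k; omega
      nlinarith
    rw [hT, pow_add, pow_mul]; ring
  rw [h3, ← h]

lemma p_eq (hq : q ^ (M + 1) = 0) : p q M = O q M * p (q ^ 2) M := by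
  rw [← p_two_mul]
  exact (p_stab hq (by omega : M ≤ 2 * M)).symm

lemma C_mul_O (hq : q ^ (M + 1) = 0) : C q M * O q M = 1 := by
  have h1 := C_mul_p q M
  rw [p_eq hq] at h1
  have hu := unit_p (sq_nil hq) M
  have h2 : (C q M * O q M) * p (q ^ 2) M = 1 * p (q ^ 2) M := by linear_combination h1
  exact hu.mul_right_cancel h2

/-- `Phi q * C q = p q` -/
lemma Phi_mul_C (hq : q ^ (M + 1) = 0) {N : ℕ} (hN : 2 * M + 2 ≤ N) :
    Phi q N * C q M = p q M := by
  rw [Phi_eq hq hN, p_eq hq]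
  linear_combination (O q M * p (q ^ 2) M) * C_mul_O hq

/-- First identity: Jacobi. -/
theorem psi_phi_sq (hq : q ^ (M + 1) = 0) {N : ℕ} (hN : 2 * M + 2 ≤ N) :
    Psi q N * Phi q N ^ 2 = G q N := by
  rw [Psi_eq hq hN, G_eq hq hN]
  have h := Phi_mul_C hq hN
  linear_combination (p q M * (Phi q N * C q M + p q M)) * h

/-- Second identity: Hecke. -/
theorem psi_phi (hq : q ^ (M + 1) = 0) {N : ℕ} (hN : 2 * M + 2 ≤ N) :
    Psi q N * Phi q N = Psi (-q) N * Phi (q ^ 2) N := by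
  have h1 := Phi_mul_C hq hN
  have h2 := Phi_mul_C (sq_nil hq) hN
  have h3 : C (-q) M = O q M * C (q ^ 2) M := by
    rw [← C_neg_two_mul]
    exact (C_stab (neg_nil hq) (by omega : M ≤ 2 * M)).symm
  have h4 := C_mul_p (-q) M
  rw [neg_sq] at h4
  have h5 := C_mul_p q M
  have h6 := p_eq hq
  rw [Psi_eq hq hN, Psi_eq (neg_nil hq) hN]
  have e1 : C q M ^ 2 * p q M * Phi q N = p q M * p (q ^ 2) M := by
    linear_combination (C q M * p q M) * h1 + p q M * h5
  have e2 : C (-q) M ^ 2 * p (-q) M * Phi (q ^ 2) N = p q M * p (q ^ 2) M := by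
    linear_combination (C (-q) M * Phi (q ^ 2) N) * h4 + (p (q ^ 2) M * Phi (q ^ 2) N) * h3
      + (p (q ^ 2) M * O q M) * h2 - (p (q ^ 2) M) * h6
  rw [e1, e2]

end Pool.Agent.TUN
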