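import Pool.Agent.Lib_helper7.TUN.Main

set_option autoImplicit false

/-!
# The class `n ≡ 3 mod 8`

`c(n)` is a signed sum over the representations of `n` by three odd squares; the symmetric group on three
letters gives the residue modulo 32.
-/

namespace Pool.Agent.TUN

open Finset

/-- `(2/x)` for odd `x` -/
def tw (x : ℤ) : ℤ := if x % 8 = 1 ∨ x % 8 = 7 then 1 else -1

lemma tw_neg (x : ℤ) (hx : x % 2 ≠ 0) : tw (-x) = tw x := by
  unfold tw
  have : ((-x) % 8 = 1 ∨ (-x) % 8 = 7) ↔ (x % 8 = 1 ∨ x % 8 = 7) := by omega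
  simp only [this]

/-! ### symmetrisation over `a, b, c < L` -/

section symm

variable (L : ℕ) (H : ℕ → ℕ → ℕ → ℤ) (h12 : ∀ a b c, H a b c = H b a c) (h23 : ∀ a b c, H a b c = H a c b)

/-- triple sum over the range -/
noncomputable def R3 (L : ℕ) (F : ℕ → ℕ → ℕ → ℤ) : ℤ :=
  ∑ a ∈ range L, ∑ b ∈ range L, ∑ c ∈ range L, F a b c

lemma R3_congr {F G : ℕ → ℕ → ℕ → ℤ} (h : ∀ a b c, F a b c = G a b c) : R3 L F = R3 L G := by
  unfold R3
  exact sum_congr rfl fun a _ => sum_congr rfl fun b _ => sum_congr rfl fun c _ => h a b c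

lemma R3_add (F G : ℕ → ℕ → ℕ → ℤ) : R3 L (fun a b c => F a b c + G a b c) = R3 L F + R3 L G := by
  unfold R3
  simp only [sum_add_distrib]

lemma R3_mul (k : ℤ) (F : ℕ → ℕ → ℕ → ℤ) : R3 L (fun a b c => k * F a b c) = k * R3 L F := by
  unfold R3
  simp only [mul_sum]

lemma R3_12 (F : ℕ → ℕ → ℕ → ℤ) : R3 L (fun a b c => F b a c) = R3 L F := by
  unfold R3
  rw [sum_comm]

lemma R3_23 (F : ℕ → ℕ → ℕ → ℤ) : R3 L (fun a b c => F a c b) = R3 L F := by
  unfold R3
  apply sum_congr rfl; intro a _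
  rw [sum_comm]

lemma R3_cyc (F : ℕ → ℕ → ℕ → ℤ) : R3 L (fun a b c => F c a b) = R3 L F := by
  rw [R3_23 L (fun a b c => F b a c), R3_12 L F]

lemma R3_cyc2 (F : ℕ → ℕ → ℕ → ℤ) : R3 L (fun a b c => F b c a) = R3 L F := by
  rw [R3_12 L (fun a b c => F a c b), R3_23 L F]

lemma R3_13 (F : ℕ → ℕ → ℕ → ℤ) : R3 L (fun a b c => F c b a) = R3 L F := by
  rw [R3_12 L (fun a b c => F c a b), R3_cyc L F]

include h12 h23

lemma symm3 (φ : ℕ → ℤ) (hd : ∀ a, H a a a = 0) :
    R3 L (fun a b c => H a b c * φ a)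
      = 2 * R3 L (fun a b c => if a < b ∧ b < c then H a b c * (φ a + φ b + φ c) else 0)
        + ∑ a ∈ range L, ∑ b ∈ range L, H a a b * (2 * φ a + φ b) := by
  have key : ∀ a b c, H a b c * φ a
      = ((if a < b ∧ b < c then H a b c * φ a else 0) + (if a < c ∧ c < b then H a b c * φ a else 0)
        + (if b < a ∧ a < c then H a b c * φ a else 0) + (if c < a ∧ a < b then H a b c * φ a else 0)
        + (if b < c ∧ c < a then H a b c * φ a else 0) + (if c < b ∧ b < a then H a b c * φ a else 0))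
        + ((if a = b then H a b c * φ a else 0) + (if a = c then H a b c * φ a else 0)
        + (if b = c then H a b c * φ a else 0)) := by
    intro a b c
    rcases lt_trichotomy a b with h1 | h1 | h1 <;> rcases lt_trichotomy b c with h2 | h2 | h2 <;>
      rcases lt_trichotomy a c with h3 | h3 | h3 <;>
      first
        | (exfalso; omega)
        | (subst h1; subst h2; simp [hd])
        | (subst h1; simp [hd, h2, h3, h2.ne, h2.ne', h3.ne, h3.ne', not_lt_of_gt h2, not_lt_of_gt h3])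
        | (subst h2; simp [hd, h1, h3, h1.ne, h1.ne', h3.ne, h3.ne', not_lt_of_gt h1, not_lt_of_gt h3])
        | (subst h3; simp [hd, h1, h2, h1.ne, h1.ne', h2.ne, h2.ne', not_lt_of_gt h1, not_lt_of_gt h2])
        | (simp [h1, h2, h3, h1.ne, h1.ne', h2.ne, h2.ne', h3.ne, h3.ne', not_lt_of_gt h1, not_lt_of_gt h2,
            not_lt_of_gt h3])
  rw [R3_congr L key]
  simp only [R3_add]
  have t2 : R3 L (fun a b c => if a < c ∧ c < b then H a b c * φ a else 0)
      = R3 L (fun a b c => if a < b ∧ b < c then H a b c * φ a else 0) := by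
    rw [← R3_23 L (fun a b c => if a < b ∧ b < c then H a b c * φ a else 0)]
    apply R3_congr; intro a b c; rw [h23]
  have t3 : R3 L (fun a b c => if b < a ∧ a < c then H a b c * φ a else 0)
      = R3 L (fun a b c => if a < b ∧ b < c then H a b c * φ b else 0) := by
    rw [← R3_12 L (fun a b c => if a < b ∧ b < c then H a b c * φ b else 0)]
    apply R3_congr; intro a b c; rw [h12]
  have t4 : R3 L (fun a b c => if c < a ∧ a < b then H a b c * φ a else 0)
      = R3 L (fun a b c => if a < b ∧ b < c then H a b c * φ b else 0) := by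
    rw [← R3_cyc L (fun a b c => if a < b ∧ b < c then H a b c * φ b else 0)]
    apply R3_congr; intro a b c; rw [h12 c a b, h23 a c b]
  have t5 : R3 L (fun a b c => if b < c ∧ c < a then H a b c * φ a else 0)
      = R3 L (fun a b c => if a < b ∧ b < c then H a b c * φ c else 0) := by
    rw [← R3_cyc2 L (fun a b c => if a < b ∧ b < c then H a b c * φ c else 0)]
    apply R3_congr; intro a b c; rw [h23 b c a, h12 b a c]
  have t6 : R3 L (fun a b c => if c < b ∧ b < a then H a b c * φ a else 0)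
      = R3 L (fun a b c => if a < b ∧ b < c then H a b c * φ c else 0) := by
    rw [← R3_13 L (fun a b c => if a < b ∧ b < c then H a b c * φ c else 0)]
    apply R3_congr; intro a b c; rw [h12 c b a, h23 b c a, h12 b a c]
  have t0 : R3 L (fun a b c => if a < b ∧ b < c then H a b c * (φ a + φ b + φ c) else 0)
      = R3 L (fun a b c => if a < b ∧ b < c then H a b c * φ a else 0)
        + R3 L (fun a b c => if a < b ∧ b < c then H a b c * φ b else 0)
        + R3 L (fun a b c => if a < b ∧ b < c then H a b c * φ c else 0) := by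
    rw [← R3_add, ← R3_add]
    apply R3_congr; intro a b c
    split_ifs <;> ring
  have e1 : R3 L (fun a b c => if a = b then H a b c * φ a else 0)
      = ∑ a ∈ range L, ∑ b ∈ range L, H a a b * φ a := by
    unfold R3
    apply sum_congr rfl; intro a ha
    rw [sum_comm]
    apply sum_congr rfl; intro c _
    rw [sum_ite_eq, if_pos ha]
  have e2 : R3 L (fun a b c => if a = c then H a b c * φ a else 0)
      = ∑ a ∈ range L, ∑ b ∈ range L, H a a b * φ a := by
    unfold R3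
    apply sum_congr rfl; intro a ha
    apply sum_congr rfl; intro b _
    rw [sum_ite_eq, if_pos ha, h23]
  have e3 : R3 L (fun a b c => if b = c then H a b c * φ a else 0)
      = ∑ a ∈ range L, ∑ b ∈ range L, H a a b * φ b := by
    unfold R3
    rw [sum_comm]
    apply sum_congr rfl; intro b hb
    apply sum_congr rfl; intro a _
    rw [sum_ite_eq, if_pos hb, h12 a b b, h23 b a b]
  have e4 : ∑ a ∈ range L, ∑ b ∈ range L, H a a b * (2 * φ a + φ b)
      = 2 * (∑ a ∈ range L, ∑ b ∈ range L, H a a b * φ a) + ∑ a ∈ range L, ∑ b ∈ range L, H a a b * φ b := by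
    simp only [mul_sum, ← sum_add_distrib]
    apply sum_congr rfl; intro a _
    apply sum_congr rfl; intro b _
    ring
  rw [t2, t3, t4, t5, t6, t0, e1, e2, e3, e4]
  ring

end symm

/-- the number of representations by three positive odd squares, weighted by the first -/
noncomputable def PS (n : ℤ) (L : ℕ) (f : ℤ → ℤ) : ℤ :=
  R3 L (fun a b c => (if (2 * (a : ℤ) + 1) ^ 2 + (2 * b + 1) ^ 2 + (2 * c + 1) ^ 2 = n then 1 else 0)
    * f (2 * a + 1))

/-- `∑ f(x)` over `n = 2x² + z²`, `x, z > 0` odd -/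
noncomputable def PB (n : ℤ) (L : ℕ) (f : ℤ → ℤ) : ℤ :=
  ∑ a ∈ range L, ∑ b ∈ range L, if 2 * (2 * (a : ℤ) + 1) ^ 2 + (2 * b + 1) ^ 2 = n then f (2 * a + 1) else 0

lemma tw_sq_aux (x : ℤ) (hx : x % 2 = 1) : ∃ k : ℤ, x ^ 2 = 16 * k + 1 + 4 * (1 - tw x) := by
  obtain ⟨q, r, hr, rfl⟩ : ∃ q r : ℤ, (r = 1 ∨ r = 3 ∨ r = 5 ∨ r = 7) ∧ x = 8 * q + r :=
    ⟨x / 8, x % 8, by omega, by omega⟩
  rcases hr with rfl | rfl | rfl | rfl
  · refine ⟨4 * q ^ 2 + q, ?_⟩
    have : tw (8 * q + 1) = 1 := by unfold tw; rw [if_pos (by omega)]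
    rw [this]; ring
  · refine ⟨4 * q ^ 2 + 3 * q, ?_⟩
    have : tw (8 * q + 3) = -1 := by unfold tw; rw [if_neg (by omega)]
    rw [this]; ring
  · refine ⟨4 * q ^ 2 + 5 * q + 1, ?_⟩
    have : tw (8 * q + 5) = -1 := by unfold tw; rw [if_neg (by omega)]
    rw [this]; ring
  · refine ⟨4 * q ^ 2 + 7 * q + 3, ?_⟩
    have : tw (8 * q + 7) = 1 := by unfold tw; rw [if_pos (by omega)]
    rw [this]; ring

lemma tw_cases (x : ℤ) : tw x = 1 ∨ tw x = -1 := by unfold tw; split_ifs <;> simp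

/-- the sign `(-1)^((n-3)/8)` -/
def sig3 (n : ℤ) : ℤ := if n % 16 = 3 then 1 else -1

lemma tw_prod {n x y z : ℤ} (hn : n % 8 = 3) (hx : x % 2 = 1) (hy : y % 2 = 1) (hz : z % 2 = 1)
    (h : x ^ 2 + y ^ 2 + z ^ 2 = n) : tw x * tw y * tw z = sig3 n := by
  obtain ⟨k1, h1⟩ := tw_sq_aux x hx
  obtain ⟨k2, h2⟩ := tw_sq_aux y hy
  obtain ⟨k3, h3⟩ := tw_sq_aux z hz
  rw [h1, h2, h3] at h
  unfold sig3
  rcases tw_cases x with hx' | hx' <;> rcases tw_cases y with hy' | hy' <;> rcases tw_cases z with hz' | hz' <;>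
    rw [hx', hy', hz'] at h ⊢ <;> split_ifs with hc <;> first | (norm_num; done) | (exfalso; omega)

lemma tw_sum {n x y z : ℤ} (hn : n % 8 = 3) (hx : x % 2 = 1) (hy : y % 2 = 1) (hz : z % 2 = 1)
    (h : x ^ 2 + y ^ 2 + z ^ 2 = n) : ∃ k : ℤ, tw x + tw y + tw z = 4 * k - sig3 n := by
  rw [← tw_prod hn hx hy hz h]
  rcases tw_cases x with hx' | hx' <;> rcases tw_cases y with hy' | hy' <;> rcases tw_cases z with hz' | hz' <;>
    rw [hx', hy', hz'] <;> first | (refine ⟨1, ?_⟩; decide) | (refine ⟨0, ?_⟩; decide) | (refine ⟨-1, ?_⟩; decide)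

lemma tw_two {n x z : ℤ} (hn : n % 8 = 3) (hx : x % 2 = 1) (hz : z % 2 = 1)
    (h : 2 * x ^ 2 + z ^ 2 = n) : tw z = sig3 n := by
  have := tw_prod hn hx hx hz (by rw [← h]; ring)
  rcases tw_cases x with hx' | hx' <;> rw [hx'] at this <;> linarith

lemma PS_eq (n : ℤ) (L : ℕ) (f : ℤ → ℤ) (h3 : ∀ k : ℤ, n ≠ 3 * k ^ 2) :
    PS n L f = 2 * R3 L (fun a b c => if a < b ∧ b < c then
        (if (2 * (a : ℤ) + 1) ^ 2 + (2 * b + 1) ^ 2 + (2 * c + 1) ^ 2 = n then 1 else 0)
          * (f (2 * a + 1) + f (2 * b + 1) + f (2 * c + 1)) else 0)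
      + ∑ a ∈ range L, ∑ b ∈ range L,
          (if (2 * (a : ℤ) + 1) ^ 2 + (2 * a + 1) ^ 2 + (2 * b + 1) ^ 2 = n then 1 else 0)
            * (2 * f (2 * a + 1) + f (2 * b + 1)) := by
  unfold PS
  exact symm3 L (fun a b c => if (2 * (a : ℤ) + 1) ^ 2 + (2 * b + 1) ^ 2 + (2 * c + 1) ^ 2 = n then 1 else 0)
    (fun a b c => by
      have : ((2 * (a : ℤ) + 1) ^ 2 + (2 * b + 1) ^ 2 + (2 * c + 1) ^ 2 = n)
        ↔ ((2 * (b : ℤ) + 1) ^ 2 + (2 * a + 1) ^ 2 + (2 * c + 1) ^ 2 = n) := by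
        constructor <;> intro h <;> linarith
      simp only [this])
    (fun a b c => by
      have : ((2 * (a : ℤ) + 1) ^ 2 + (2 * b + 1) ^ 2 + (2 * c + 1) ^ 2 = n)
        ↔ ((2 * (a : ℤ) + 1) ^ 2 + (2 * c + 1) ^ 2 + (2 * b + 1) ^ 2 = n) := by
        constructor <;> intro h <;> linarith
      simp only [this])
    (fun a => f (2 * (a : ℤ) + 1))
    (fun a => by
      rw [if_neg]
      intro h
      exact h3 (2 * (a : ℤ) + 1) (by linarith))

/-- the main computation in the class `3 mod 8` -/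
theorem three_main (n : ℤ) (hn : n % 8 = 3) (L : ℕ) (h3 : ∀ k : ℤ, n ≠ 3 * k ^ 2) :
    ∃ U K : ℤ, PS n L (fun _ => 1) = 6 * U + 3 * PB n L (fun _ => 1) ∧
      PS n L tw = -2 * sig3 n * U + 8 * K + 2 * PB n L tw + sig3 n * PB n L (fun _ => 1) := by
  have hk : ∀ a b c : ℕ, ∃ k : ℤ, (if a < b ∧ b < c then
        (if (2 * (a : ℤ) + 1) ^ 2 + (2 * b + 1) ^ 2 + (2 * c + 1) ^ 2 = n then 1 else 0)
          * (tw (2 * a + 1) + tw (2 * b + 1) + tw (2 * c + 1)) else 0)
      = 4 * k + -sig3 n * (if a < b ∧ b < c then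
        (if (2 * (a : ℤ) + 1) ^ 2 + (2 * b + 1) ^ 2 + (2 * c + 1) ^ 2 = n then 1 else 0) else 0) := by
    intro a b c
    split_ifs with h1 h2
    · obtain ⟨k, hk⟩ := tw_sum hn (x := 2 * (a : ℤ) + 1) (y := 2 * b + 1) (z := 2 * c + 1)
        (by omega) (by omega) (by omega) h2
      exact ⟨k, by rw [one_mul, hk]; ring⟩
    · exact ⟨0, by ring⟩
    · exact ⟨0, by ring⟩
  choose K hK using hk
  refine ⟨R3 L (fun a b c => if a < b ∧ b < c then
        (if (2 * (a : ℤ) + 1) ^ 2 + (2 * b + 1) ^ 2 + (2 * c + 1) ^ 2 = n then 1 else 0) else 0),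
    R3 L K, ?_, ?_⟩
  · rw [PS_eq n L _ h3]
    have e1 : R3 L (fun a b c => if a < b ∧ b < c then
        (if (2 * (a : ℤ) + 1) ^ 2 + (2 * b + 1) ^ 2 + (2 * c + 1) ^ 2 = n then (1 : ℤ) else 0)
          * (1 + 1 + 1) else 0)
        = 3 * R3 L (fun a b c => if a < b ∧ b < c then
        (if (2 * (a : ℤ) + 1) ^ 2 + (2 * b + 1) ^ 2 + (2 * c + 1) ^ 2 = n then 1 else 0) else 0) := by
      rw [← R3_mul]
      apply R3_congr; intro a b c
      split_ifs <;> norm_num
    rw [e1]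
    unfold PB
    have e2 : ∑ a ∈ range L, ∑ b ∈ range L,
          (if (2 * (a : ℤ) + 1) ^ 2 + (2 * a + 1) ^ 2 + (2 * b + 1) ^ 2 = n then (1 : ℤ) else 0) * (2 * 1 + 1)
        = 3 * ∑ a ∈ range L, ∑ b ∈ range L,
          (if 2 * (2 * (a : ℤ) + 1) ^ 2 + (2 * b + 1) ^ 2 = n then 1 else 0) := by
      simp only [mul_sum]
      apply sum_congr rfl; intro a _
      apply sum_congr rfl; intro b _
      have : ((2 * (a : ℤ) + 1) ^ 2 + (2 * a + 1) ^ 2 + (2 * b + 1) ^ 2 = n)
        ↔ (2 * (2 * (a : ℤ) + 1) ^ 2 + (2 * b + 1) ^ 2 = n) := by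
        constructor <;> intro h <;> linarith
      simp only [this]
      split_ifs <;> norm_num
    rw [e2]
    ring
  · rw [PS_eq n L _ h3, R3_congr L hK, R3_add, R3_mul, R3_mul]
    unfold PB
    have e2 : ∑ a ∈ range L, ∑ b ∈ range L,
          (if (2 * (a : ℤ) + 1) ^ 2 + (2 * a + 1) ^ 2 + (2 * b + 1) ^ 2 = n then (1 : ℤ) else 0)
            * (2 * tw (2 * a + 1) + tw (2 * b + 1))
        = 2 * (∑ a ∈ range L, ∑ b ∈ range L,
          (if 2 * (2 * (a : ℤ) + 1) ^ 2 + (2 * b + 1) ^ 2 = n then tw (2 * a + 1) else 0))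
          + sig3 n * (∑ a ∈ range L, ∑ b ∈ range L,
          (if 2 * (2 * (a : ℤ) + 1) ^ 2 + (2 * b + 1) ^ 2 = n then 1 else 0)) := by
      simp only [mul_sum, ← sum_add_distrib]
      apply sum_congr rfl; intro a _
      apply sum_congr rfl; intro b _
      have : ((2 * (a : ℤ) + 1) ^ 2 + (2 * a + 1) ^ 2 + (2 * b + 1) ^ 2 = n)
        ↔ (2 * (2 * (a : ℤ) + 1) ^ 2 + (2 * b + 1) ^ 2 = n) := by
        constructor <;> intro h <;> linarith
      simp only [this]
      split_ifs with h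
      · rw [tw_two hn (by omega) (by omega) h]; ring
      · ring
    rw [e2]
    ring

end Pool.Agent.TUN
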